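import Pool.Agent.H9.SF.FDefs

/-! Module FJ: choice in the generic extension. -/

set_option linter.unusedVariables false

open Ordinal
open scoped ZFSet

namespace SF.H33

open SF

theorem dm_of_isFunc {x y f : V} (h : ZFSet.IsFunc x y f) : dm f = x := by
  ext a
  rw [mem_dm]
  constructor
  · rintro ⟨b, hb⟩
    exact (ZFSet.pair_mem_prod.1 (h.1 hb)).1
  · intro ha
    obtain ⟨b, hb, -⟩ := h.2 a ha
    exact ⟨b, hb⟩

theorem fj (hFI : T_FI) (hFH : T_FH) : T_FJ := by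
  intro M c r G k hc hr hP hG
  obtain ⟨kE, hME, hGE⟩ := hFI M c r G k.toZFm hc hr hP hG
  refine ⟨kE, ?_⟩
  intro X hX
  obtain ⟨x, hx, hXx⟩ := hX
  by_cases hne : X = ∅
  · refine ⟨0, ∅, kE.mempty, ?_, ?_⟩
    · rw [Ordinal.toZFSet_zero]
      refine ⟨fun z hz => absurd hz (ZFSet.notMem_empty z), fun z hz => absurd hz (ZFSet.notMem_empty z)⟩
    · intro b hb
      rw [hne] at hb
      exact absurd hb (ZFSet.notMem_empty b)
  · obtain ⟨a0, ha0⟩ : ∃ a, a ∈ X := by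
      by_contra h
      push Not at h
      exact hne ((ZFSet.eq_empty X).2 h)
    have hXE : Ext M G X := ⟨x, hx, hXx⟩
    have ha0E : Ext M G a0 := kE.trans _ hXE a0 ha0
    have hdx : M (dm x) := (Tm.dm (Tm.var 0)).1 M k.toZFm (fun _ => x) (fun _ => hx)
    obtain ⟨α, f, hf, hfun, honto⟩ := k.wo (dm x) hdx
    have hfE : Ext M G f := hME f hf
    have hα : M α.toZFSet := by
      have h1 := (Tm.dm (Tm.var 0)).1 M k.toZFm (fun _ => f) (fun _ => hf)
      have h2 : dm f = α.toZFSet := dm_of_isFunc hfun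
      rw [← h2]
      exact h1
    have hαE : Ext M G α.toZFSet := hME _ hα
    -- the set of the good indices
    have tD : Tm ZFm (fun _ v => (v 0).sep fun ξ => val (v 2) (app (v 1) ξ) ∈ v 3) :=
      Tm.sep (R := fun _ v => val (v 3) (app (v 2) (v 0)) ∈ v 4)
        (Dfb.mem (Tm.val (Tm.var 3) (Tm.app (Tm.var 2) (Tm.var 0))) (Tm.var 4)) (Tm.var 0)
    have th : Tm ZFm (fun _ v =>
        (resS ((v 0).sep fun ξ => val (v 2) (app (v 1) ξ) ∈ v 3) fun ξ => val (v 2) (app (v 1) ξ)) ∪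
        ZFSet.prod (v 0 \ ((v 0).sep fun ξ => val (v 2) (app (v 1) ξ) ∈ v 3)) {v 4}) :=
      Tm.union (Tm.resS (g := fun _ v => val (v 3) (app (v 2) (v 0))) tD
        (Tm.val (Tm.var 3) (Tm.app (Tm.var 2) (Tm.var 0))))
        (Tm.prod (Tm.diff (Tm.var 0) tD) (Tm.sing (Tm.var 4)))
    set D : V := (α.toZFSet).sep fun ξ => val G (app f ξ) ∈ X with hD
    set h : V := (resS D fun ξ => val G (app f ξ)) ∪ ZFSet.prod (α.toZFSet \ D) {a0} with hh
    have hhE : Ext M G h := th.1 (Ext M G) kE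
      (cons α.toZFSet (cons f (cons G (cons X fun _ => a0))))
      (In.cons (In.cons (In.cons (In.cons (fun _ => ha0E) hXE) hGE) hfE) hαE)
    have hmem : ∀ ξ y, ZFSet.pair ξ y ∈ h ↔
        (ξ ∈ D ∧ y = val G (app f ξ)) ∨ ((ξ ∈ α.toZFSet ∧ ξ ∉ D) ∧ y = a0) := by
      intro ξ y
      rw [hh, ZFSet.mem_union, pair_mem_resS, ZFSet.pair_mem_prod, ZFSet.mem_sdiff,
        ZFSet.mem_singleton]
    refine ⟨α, h, hhE, ⟨?_, ?_⟩, ?_⟩
    · intro z hz
      rw [hh, ZFSet.mem_union] at hz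
      rcases hz with hz | hz
      · obtain ⟨ξ, hξ, rfl⟩ := mem_resS.1 hz
        obtain ⟨h1, h2⟩ := ZFSet.mem_sep.1 hξ
        exact ZFSet.pair_mem_prod.2 ⟨h1, h2⟩
      · obtain ⟨ξ, hξ, y, hy, rfl⟩ := ZFSet.mem_prod.1 hz
        rw [ZFSet.mem_singleton] at hy
        rw [hy]
        exact ZFSet.pair_mem_prod.2 ⟨(ZFSet.mem_sdiff.1 hξ).1, ha0⟩
    · intro ξ hξ
      by_cases hξD : ξ ∈ D
      · refine ⟨val G (app f ξ), (hmem _ _).2 (Or.inl ⟨hξD, rfl⟩), fun y hy => ?_⟩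
        rcases (hmem _ _).1 hy with h1 | h1
        · exact h1.2
        · exact absurd hξD h1.1.2
      · refine ⟨a0, (hmem _ _).2 (Or.inr ⟨⟨hξ, hξD⟩, rfl⟩), fun y hy => ?_⟩
        rcases (hmem _ _).1 hy with h1 | h1
        · exact absurd h1.1 hξD
        · exact h1.2
    · intro b hb
      have hb' : b ∈ val G x := hXx ▸ hb
      obtain ⟨z, p, hp, hzp, rfl⟩ := mem_val.1 hb'
      obtain ⟨ξ, hξ, hξz⟩ := honto z (mem_dm.2 ⟨p, hzp⟩)
      have happ : app f ξ = z := app_eq (svl_of_isFunc hfun) hξz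
      refine ⟨ξ, hξ, (hmem _ _).2 (Or.inl ⟨ZFSet.mem_sep.2 ⟨hξ, ?_⟩, ?_⟩)⟩
      · rw [happ]
        exact hb
      · rw [happ]

end SF.H33
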