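import Pool.Agent.H68.SF.LT

/-! Module LZF: levels of regular uncountable height are models of `ZF⁻`. -/

set_option linter.unusedVariables false

open Ordinal Cardinal Order Set
open scoped ZFSet

namespace SF.H33

open SF

/-- finitely many elements of a limit level are in one level -/
theorem fin_level {a A : V} {γ : Ordinal.{0}} (hγ : IsSuccLimit γ) (v : ℕ → V) (n : ℕ)
    (hv : ∀ i < n, v i ∈ Lh a A γ) : ∃ δ < γ, ∀ i < n, v i ∈ Lh a A δ := by
  induction n with
  | zero => exact ⟨0, hγ.bot_lt, fun i hi => absurd hi (Nat.not_lt_zero i)⟩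
  | succ n ih =>
    obtain ⟨δ, hδ, h1⟩ := ih fun i hi => hv i (by omega)
    obtain ⟨ε, hε, h2⟩ := (mem_Lh_limit hγ).1 (hv n (by omega))
    refine ⟨max δ ε, max_lt hδ hε, fun i hi => ?_⟩
    by_cases h : i < n
    · exact Lh_mono (le_max_left _ _) (h1 i h)
    · have : i = n := by omega
      rw [this]
      exact Lh_mono (le_max_right _ _) h2

theorem lzf (hLCA : T_LCA) (hLCH : T_LCH) : T_LZF := by
  intro κ hκ hκ0 a A ha hac
  have hlim : IsSuccLimit κ.ord := Cardinal.isSuccLimit_ord hκ0.le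
  have htr := Lh_isTransitive (A := A) ha κ.ord
  refine ⟨fun x hx y hy => htr x hx hy, ?_, ?_, ?_, ?_, ?_⟩
  · intro x y hx hy
    obtain ⟨δ, hδ, h1⟩ := (mem_Lh_limit hlim).1 hx
    obtain ⟨ε, hε, h2⟩ := (mem_Lh_limit hlim).1 hy
    refine (mem_Lh_limit hlim).2 ⟨Order.succ (max δ ε), hlim.succ_lt (max_lt hδ hε), ?_⟩
    exact pair_mem_Lh ha (Order.lt_succ _) (Lh_mono (le_max_left _ _) h1)
      (Lh_mono (le_max_right _ _) h2)
  · intro x hx
    obtain ⟨δ, hδ, h1⟩ := (mem_Lh_limit hlim).1 hx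
    exact (mem_Lh_limit hlim).2 ⟨Order.succ δ, hlim.succ_lt hδ, union_mem_Lh ha (Order.lt_succ _) h1⟩
  · refine ord_mem_Lh ha ?_
    rw [Cardinal.lt_ord, Ordinal.card_omega0]
    exact hκ0
  · -- separation
    intro φ v b hv hb
    set v' : ℕ → V := fun i => if i < φ.bd then v i else b with hv'
    have hv'L : ∀ i, v' i ∈ Lh a A κ.ord := by
      intro i
      show (if i < φ.bd then v i else b) ∈ _
      split_ifs
      · exact hv i
      · exact hb
    obtain ⟨δ, hδ, h1⟩ := fin_level hlim v' (φ.bd + 1) (fun i _ => hv'L i)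
    have hbδ : b ∈ Lh a A δ := by
      have h2 := h1 φ.bd (by omega)
      have h3 : v' φ.bd = b := if_neg (lt_irrefl _)
      rwa [h3] at h2
    have hvδ : ∀ i, v' i ∈ Lh a A δ := by
      intro i
      by_cases hi : i < φ.bd
      · exact h1 i (by omega)
      · have h3 : v' i = b := if_neg hi
        rw [h3]
        exact hbδ
    obtain ⟨δ', hδδ', hδ', hel⟩ := hLCH κ hκ hκ0 a A ha hac δ hδ
    have hbδ' : b ∈ Lh a A δ' := Lh_mono hδδ'.le hbδ
    have hvδ' : ∀ i, v' i ∈ Lh a A δ' := fun i => Lh_mono hδδ'.le (hvδ i)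
    have hdef := def_mem (x := Lh a A δ') (A := A)
      (.and (.mem 0 1) (φ.np.rn (upr fun i => i + 1))) (cons b v') (In.cons hvδ' hbδ')
    have e : ((Lh a A δ').sep fun z => SatP (· ∈ Lh a A δ') (· ∈ A)
        (.and (.mem 0 1) (φ.np.rn (upr fun i => i + 1))) (cons z (cons b v'))) =
        b.sep fun z => Sat (· ∈ Lh a A κ.ord) φ (cons z v) := by
      ext z
      simp only [ZFSet.mem_sep]
      have key : ∀ z, z ∈ Lh a A δ' → (SatP (· ∈ Lh a A δ') (· ∈ A)
          (φ.np.rn (upr fun i => i + 1)) (cons z (cons b v')) ↔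
          Sat (· ∈ Lh a A κ.ord) φ (cons z v)) := by
        intro z hz
        rw [satP_rn, cons_upr]
        have e1 : (cons z fun i => cons b v' (i + 1)) = cons z v' := by
          funext i
          cases i <;> rfl
        rw [e1, hel φ.np (cons z v') (In.cons hvδ' hz), satP_np]
        refine satP_congr _ _ φ _ _ fun i hi => ?_
        cases i with
        | zero => rfl
        | succ n =>
          show v' n = v n
          exact if_pos (by omega)
      constructor
      · rintro ⟨hz, hzb, hs⟩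
        exact ⟨hzb, (key z hz).1 hs⟩
      · rintro ⟨hzb, hs⟩
        have hz : z ∈ Lh a A δ' := Lh_isTransitive ha δ' b hbδ' hzb
        exact ⟨hz, hzb, (key z hz).2 hs⟩
    rw [e] at hdef
    exact (mem_Lh_limit hlim).2 ⟨Order.succ δ', hlim.succ_lt hδ', Def_Lh_sub (Order.lt_succ _) hdef⟩
  · -- collection
    intro φ v b hv hb hex
    obtain ⟨δ, hδ, hbδ⟩ := (mem_Lh_limit hlim).1 hb
    have hbc : b.card < κ := by
      have h1 : b ⊆ Lh a A δ := fun z hz => Lh_isTransitive ha δ b hbδ hz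
      refine ((ZFSet.card_mono h1).trans (hLCA a A δ)).trans_lt ?_
      exact max_lt (max_lt hκ0 hac) (Cardinal.lt_ord.1 hδ)
    have hex2 : ∀ x : Shrink b, ∃ y ε, ε < κ.ord ∧ y ∈ Lh a A ε ∧
        Sat (· ∈ Lh a A κ.ord) φ (cons y (cons ((equivShrink b).symm x).1 v)) := by
      intro x
      obtain ⟨y, hy, hs⟩ := hex _ ((equivShrink b).symm x).2
      obtain ⟨ε, hε, h1⟩ := (mem_Lh_limit hlim).1 hy
      exact ⟨y, ε, hε, h1, hs⟩
    choose y ε hε hyε hs using hex2
    have hsup : iSup ε < κ.ord := Cardinal.iSup_lt_ord_of_isRegular hκ hbc hε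
    refine ⟨Lh a A (iSup ε), Lh_mem hsup, fun x hx => ?_⟩
    have h1 := hyε (equivShrink b ⟨x, hx⟩)
    have h2 := hs (equivShrink b ⟨x, hx⟩)
    rw [Equiv.symm_apply_apply] at h2
    exact ⟨_, Lh_mono (Ordinal.le_iSup ε _) h1, h2⟩

end SF.H33
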