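import Pool.Agent.H84.SF.Geo

/-!
# sfc board, CRM: the derivations of the frame, by Cramer's rule
helper33
-/

set_option autoImplicit false

namespace Pool.Agent.H33.SF

open MvPolynomial SC
open Pool.Agent.H27.LV (ge deg poleOrder canDeg)
open Pool.Agent.H84.SF

section

variable {k F σ : Type} [Field k] [Field F] [Algebra k F]

/-- the chain rule for polynomials -/
theorem der_mv [Fintype σ] (D : Derivation k F F) (z : σ → F) (p : MvPolynomial σ k) :
    D (aeval z p) = ∑ j, aeval z (pderiv j p) * D (z j) := by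
  classical
  induction p using MvPolynomial.induction_on with
  | C c =>
    rw [aeval_C, Derivation.map_algebraMap]
    symm
    refine Finset.sum_eq_zero fun j _ => ?_
    rw [pderiv_C, map_zero, zero_mul]
  | add p q hp hq =>
    rw [map_add, map_add, hp, hq, ← Finset.sum_add_distrib]
    refine Finset.sum_congr rfl fun j _ => ?_
    rw [map_add, map_add, add_mul]
  | mul_X p i hp =>
    rw [map_mul, aeval_X, Derivation.leibniz, hp, smul_eq_mul, smul_eq_mul, Finset.mul_sum]
    have h1 : ∀ j : σ, aeval z (pderiv j (p * X i)) * D (z j) =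
        aeval z p * (if j = i then D (z i) else 0) + z i * (aeval z (pderiv j p) * D (z j)) := by
      intro j
      rw [Derivation.leibniz, smul_eq_mul, smul_eq_mul, pderiv_X, map_add, map_mul, map_mul,
        aeval_X]
      by_cases h : j = i
      · subst h
        rw [Pi.single_eq_same, if_pos rfl, map_one]
        ring
      · rw [Pi.single_eq_of_ne (Ne.symm h), if_neg h, map_zero]
        ring
    simp only [h1]
    rw [Finset.sum_add_distrib, ← Finset.mul_sum, ← Finset.mul_sum,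
      Finset.sum_ite_eq' Finset.univ i, if_pos (Finset.mem_univ _)]

/-- homogeneity -/
theorem hom_scale {c : F} (z : σ → F) {p : MvPolynomial σ k} {d : ℕ} (hp : p.IsHomogeneous d) :
    aeval (fun i => z i * c) p = aeval z p * c ^ d := by
  have h1 : ∀ w : σ → F, aeval w p = ∑ m ∈ p.support, algebraMap k F (coeff m p) *
      m.prod fun i e => w i ^ e := fun w => aeval_def w p ▸ eval₂_eq _ _ _
  rw [h1, h1, Finset.sum_mul]
  refine Finset.sum_congr rfl fun m hm => ?_
  rw [mul_assoc]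
  congr 1
  have h2 : ∑ i ∈ m.support, m i = d := by
    rw [← hp (mem_support_iff.mp hm), Finsupp.weight_apply, Finsupp.sum]
    refine Finset.sum_congr rfl fun i _ => ?_
    rw [Pi.one_apply, smul_eq_mul, mul_one]
  rw [Finsupp.prod, Finsupp.prod]
  simp only [mul_pow]
  rw [Finset.prod_mul_distrib, Finset.prod_pow_eq_pow_sum, h2]

end

section

variable {k σ : Type} [Field k] [Fintype σ] [DecidableEq σ]

theorem det_hom (A : Matrix σ σ (MvPolynomial σ k)) (e : σ → ℕ)
    (hA : ∀ i j, (A i j).IsHomogeneous (e i)) : A.det.IsHomogeneous (∑ i, e i) := by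
  rw [Matrix.det_apply]
  refine IsHomogeneous.sum _ _ _ fun τ _ => ?_
  have h1 : (∏ i, A (τ i) i).IsHomogeneous (∑ i, e i) := by
    have h2 := IsHomogeneous.prod Finset.univ (fun i => A (τ i) i) (fun i => e (τ i))
      fun i _ => hA (τ i) i
    rwa [Equiv.sum_comp τ e] at h2
  rcases Int.units_eq_one_or (Equiv.Perm.sign τ) with h | h
  · rw [h, one_smul]
    exact h1
  · rw [h, Units.neg_smul, one_smul]
    exact h1.neg

theorem adj_hom (A : Matrix σ σ (MvPolynomial σ k)) (e : σ → ℕ)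
    (hA : ∀ i j, (A i j).IsHomogeneous (e i)) (i j : σ) {n : ℕ} (hn : n + e i = ∑ i, e i) :
    (A.adjugate j i).IsHomogeneous n := by
  rw [Matrix.adjugate_apply]
  have h1 := det_hom (A.updateRow i (Pi.single j 1)) (Function.update e i 0) (by
    intro i' j'
    by_cases h : i' = i
    · subst h
      rw [Matrix.updateRow_self, Function.update_self]
      by_cases h' : j' = j
      · subst h'
        rw [Pi.single_eq_same]
        exact isHomogeneous_one _ _
      · rw [Pi.single_eq_of_ne h']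
        exact isHomogeneous_zero _ _ _
    · rw [Matrix.updateRow_ne h, Function.update_of_ne h]
      exact hA i' j')
  have h2 : ∑ i', Function.update e i 0 i' = n := by
    rw [Finset.sum_update_of_mem (Finset.mem_univ i), zero_add]
    have h3 := Finset.sum_sdiff (f := e) (Finset.subset_univ ({i} : Finset σ))
    rw [Finset.sum_singleton] at h3
    omega
  rw [h2] at h1
  exact h1

end

section

variable {k F σ : Type} [Field k] [Field F] [Algebra k F]

theorem os_aeval (Xc : σ → F) (s : σ → k) (y : σ → F) (hy : ∀ j, y j ∈ Os Xc s)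
    (p : MvPolynomial σ k) : aeval y p ∈ Os Xc s := by
  induction p using MvPolynomial.induction_on with
  | C c =>
    rw [aeval_C]
    exact Subalgebra.algebraMap_mem _ _
  | add p q hp hq =>
    rw [map_add]
    exact add_mem hp hq
  | mul_X p i hp =>
    rw [map_mul, aeval_X]
    exact mul_mem hp (hy i)

theorem os_der [Fintype σ] (Xc : σ → F) (s : σ → k) (hC : Cone Xc s) (L0 : MvPolynomial σ k)
    (h0 : L0.IsHomogeneous 1) (hs : eval s L0 ≠ 0) (δ : Derivation k F F)
    (hδ : ∀ j, δ (Xc j / aeval Xc L0) ∈ Os Xc s) : ∀ h ∈ Os Xc s, δ h ∈ Os Xc s := by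
  have hL : aeval Xc L0 ≠ 0 := fun h => hs (hC.pt _ h)
  obtain ⟨y, hy⟩ : ∃ y : σ → F, y = fun j => Xc j / aeval Xc L0 := ⟨_, rfl⟩
  have hyX : (fun j => y j * aeval Xc L0) = Xc := by
    funext j
    rw [hy]
    exact div_mul_cancel₀ _ hL
  have hyO : ∀ j, y j ∈ Os Xc s := by
    intro j
    refine ⟨1, X j, L0, ⟨isHomogeneous_X _ _, h0, ?_⟩, hs⟩
    rw [aeval_X]
    exact congrFun hyX j
  have hδy : ∀ j, δ (y j) ∈ Os Xc s := by
    intro j
    rw [hy]
    exact hδ j
  have hδp : ∀ p : MvPolynomial σ k, δ (aeval y p) ∈ Os Xc s := by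
    intro p
    rw [der_mv]
    exact sum_mem fun j _ => mul_mem (os_aeval Xc s y hyO _) (hδy j)
  rintro h ⟨d, a, b, ⟨ha, hb, hh⟩, hsb⟩
  have hbX : aeval Xc b ≠ 0 := fun h => hsb (hC.pt _ h)
  have ea : aeval Xc a = aeval y a * aeval Xc L0 ^ d := by
    have h1 := hom_scale (c := aeval Xc L0) y ha
    rw [hyX] at h1
    exact h1
  have eb : aeval Xc b = aeval y b * aeval Xc L0 ^ d := by
    have h1 := hom_scale (c := aeval Xc L0) y hb
    rw [hyX] at h1
    exact h1
  have hLd : aeval Xc L0 ^ d ≠ 0 := pow_ne_zero _ hL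
  have hby : aeval y b ≠ 0 := by
    intro h1
    rw [h1, zero_mul] at eb
    exact hbX eb
  have e1 : h * aeval y b = aeval y a := by
    rw [ea, eb, ← mul_assoc] at hh
    exact mul_right_cancel₀ hLd hh
  have hinv : (aeval y b)⁻¹ ∈ Os Xc s := by
    refine ⟨d, L0 ^ d, b, ⟨?_, hb, ?_⟩, hsb⟩
    · have h1 := h0.pow d
      rwa [one_mul] at h1
    · rw [eb, map_pow, ← mul_assoc, inv_mul_cancel₀ hby, one_mul]
  have e2 : δ h = (δ (aeval y a) - h * δ (aeval y b)) * (aeval y b)⁻¹ := by
    rw [← e1, Derivation.leibniz, smul_eq_mul, smul_eq_mul, add_sub_cancel_left,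
      mul_comm (aeval y b) (δ h), mul_assoc, mul_inv_cancel₀ hby, mul_one]
  rw [e2]
  exact mul_mem (sub_mem (hδp a) (mul_mem ⟨d, a, b, ⟨ha, hb, hh⟩, hsb⟩ (hδp b))) hinv

theorem dsum_apply (dd : Fin 3 → Derivation k F F) (c : Fin 3 → F) (z : F) :
    (∑ l, c l • dd l) z = ∑ l, c l * dd l z := by
  rw [Fin.sum_univ_three, Fin.sum_univ_three]
  rfl

end

theorem pf_CRM : T_CRM := by
  intro k F σ _ _ _ _ _ _ Xc s dd G L0 L1 P i0 i1 i2 m hC hLI hm hG hF
  obtain ⟨n01, n02, n12⟩ := hF.ne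
  -- degrees
  obtain ⟨d, hd, hd1, hd2⟩ : ∃ d : σ → ℕ, (∀ i, (P i).IsHomogeneous (d i)) ∧ d i1 = 1 ∧
      d i2 = m := by
    choose d0 _ h0 using hF.hom
    refine ⟨fun i => if i = i1 then 1 else if i = i2 then m else d0 i, fun i => ?_, if_pos rfl, ?_⟩
    · by_cases h1 : i = i1
      · subst h1
        simp only [if_true]
        rw [hF.e1]
        exact hF.l1
      · by_cases h2 : i = i2
        · subst h2
          simp only [if_neg h1, if_true]
          rw [hF.e2]
          exact hG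
        · simp only [if_neg h1, if_neg h2]
          exact h0 i
    · simp only [if_neg (Ne.symm n12), if_true]
  -- the matrix
  obtain ⟨Mp, hMp⟩ : ∃ Mp : Matrix σ σ (MvPolynomial σ k), Mp = Matrix.of fun i j =>
    pderiv j (P i) := ⟨_, rfl⟩
  have hMh : ∀ i j, (Mp i j).IsHomogeneous (d i - 1) := by
    intro i j
    rw [hMp]
    exact (hd i).pderiv
  obtain ⟨E, hE⟩ : ∃ E, E = ∑ i, (d i - 1) := ⟨_, rfl⟩
  have hDt : Mp.det.IsHomogeneous E := hE ▸ det_hom Mp _ hMh
  have hDs : eval s Mp.det ≠ 0 := by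
    rw [RingHom.map_det]
    have h1 : (eval s : MvPolynomial σ k →+* k).mapMatrix Mp =
        Matrix.of fun i j => eval s (pderiv j (P i)) := by
      rw [hMp]
      rfl
    rw [h1]
    exact hF.det
  have hDx : aeval Xc Mp.det ≠ 0 := fun h => hDs (hC.pt _ h)
  have hCr : ∀ (δ : Derivation k F F) (j : σ), aeval Xc Mp.det * δ (Xc j) =
      ∑ i, aeval Xc (Mp.adjugate j i) * δ (aeval Xc (P i)) := by
    intro δ j
    have h1 : ∀ i, δ (aeval Xc (P i)) = ∑ j', aeval Xc (Mp i j') * δ (Xc j') := by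
      intro i
      rw [der_mv, hMp]
      rfl
    simp only [h1, Finset.mul_sum]
    rw [Finset.sum_comm]
    have h2 : ∀ j', ∑ i, aeval Xc (Mp.adjugate j i) * (aeval Xc (Mp i j') * δ (Xc j')) =
        (if j = j' then aeval Xc Mp.det else 0) * δ (Xc j') := by
      intro j'
      have h3 : ∑ i, aeval Xc (Mp.adjugate j i) * (aeval Xc (Mp i j') * δ (Xc j')) =
          aeval Xc ((Mp.adjugate * Mp) j j') * δ (Xc j') := by
        rw [Matrix.mul_apply, map_sum, Finset.sum_mul]
        refine Finset.sum_congr rfl fun i _ => ?_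
        rw [map_mul, mul_assoc]
      rw [h3, Matrix.adjugate_mul, Matrix.smul_apply, Matrix.one_apply, smul_eq_mul]
      congr 1
      by_cases h : j = j'
      · rw [if_pos h, if_pos h, mul_one]
      · rw [if_neg h, if_neg h, mul_zero, map_zero]
    simp only [h2]
    rw [Finset.sum_eq_single j (fun j' _ h => by rw [if_neg (Ne.symm h), zero_mul])
      (fun h => absurd (Finset.mem_univ _) h), if_pos rfl]
  -- the three by three system
  obtain ⟨Q, hQ⟩ : ∃ Q : Fin 3 → F, Q = ![aeval Xc L0, aeval Xc L1, aeval Xc G] := ⟨_, rfl⟩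
  have hQ0 : Q 0 = aeval Xc L0 := by rw [hQ]; rfl
  have hQ1 : Q 1 = aeval Xc L1 := by rw [hQ]; rfl
  have hQ2 : Q 2 = aeval Xc G := by rw [hQ]; rfl
  have hP : ∀ (δ : Derivation k F F) (i : σ), δ (aeval Xc (P i)) =
      if i = i0 then δ (Q 0) else if i = i1 then δ (Q 1) else if i = i2 then δ (Q 2) else 0 := by
    intro δ i
    by_cases h0 : i = i0
    · rw [if_pos h0, h0, hF.e0, hQ0]
    · by_cases h1 : i = i1
      · rw [if_neg h0, if_pos h1, h1, hF.e1, hQ1]
      · by_cases h2 : i = i2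
        · rw [if_neg h0, if_neg h1, if_pos h2, h2, hF.e2, hQ2]
        · rw [if_neg h0, if_neg h1, if_neg h2, hF.van i h0 h1 h2, map_zero]
  obtain ⟨W, hW⟩ : ∃ W : Matrix (Fin 3) (Fin 3) F, W = Matrix.of fun l r => dd l (Q r) := ⟨_, rfl⟩
  have hWa : ∀ (c : Fin 3 → F) (r : Fin 3), Matrix.vecMul c W r = (∑ l, c l • dd l) (Q r) := by
    intro c r
    rw [dsum_apply, hW]
    rfl
  have hinj : Function.Injective W.vecMulLinear := by
    rw [injective_iff_map_eq_zero]
    intro c hc
    have h1 : ∀ r, (∑ l, c l • dd l) (Q r) = 0 := by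
      intro r
      rw [← hWa]
      exact congrFun hc r
    have h2 : ∀ j, (∑ l, c l • dd l) (Xc j) = 0 := by
      intro j
      have h3 := hCr (∑ l, c l • dd l) j
      have h4 : ∑ i, aeval Xc (Mp.adjugate j i) * (∑ l, c l • dd l) (aeval Xc (P i)) = 0 := by
        refine Finset.sum_eq_zero fun i _ => ?_
        rw [hP, h1, h1, h1]
        simp
      rw [h4] at h3
      exact (mul_eq_zero.mp h3).resolve_left hDx
    have h5 : ∑ l, c l • (fun i => dd l (Xc i)) = 0 := by
      funext j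
      rw [Finset.sum_apply]
      have h6 := h2 j
      rw [dsum_apply] at h6
      exact h6
    funext l
    exact (Fintype.linearIndependent_iff.mp hLI) c h5 l
  have hsur : ∀ t : Fin 3 → F, ∃ c : Fin 3 → F, ∀ r, (∑ l, c l • dd l) (Q r) = t r := by
    intro t
    obtain ⟨c, hc⟩ := (LinearMap.injective_iff_surjective.mp hinj) t
    refine ⟨c, fun r => ?_⟩
    rw [← hWa, ← hc]
    rfl
  have hL : aeval Xc L0 ≠ 0 := fun h => hF.v0 (hC.pt _ h)
  obtain ⟨cX, hcX⟩ := hsur ![0, aeval Xc L0, 0]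
  obtain ⟨cG, hcG⟩ := hsur ![0, 0, aeval Xc L0 ^ m]
  have x0 : (∑ l, cX l • dd l) (Q 0) = 0 := hcX 0
  have x1 : (∑ l, cX l • dd l) (Q 1) = aeval Xc L0 := hcX 1
  have x2 : (∑ l, cX l • dd l) (Q 2) = 0 := hcX 2
  have g0 : (∑ l, cG l • dd l) (Q 0) = 0 := hcG 0
  have g1 : (∑ l, cG l • dd l) (Q 1) = 0 := hcG 1
  have g2 : (∑ l, cG l • dd l) (Q 2) = aeval Xc L0 ^ m := hcG 2
  -- a derivation which kills `L0`
  have hy : ∀ δ : Derivation k F F, δ (Q 0) = 0 → ∀ j,
      δ (Xc j / aeval Xc L0) * aeval Xc L0 = δ (Xc j) := by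
    intro δ h j
    rw [hQ0] at h
    have h1 : δ (Xc j / aeval Xc L0 * aeval Xc L0) = δ (Xc j) := by
      rw [div_mul_cancel₀ _ hL]
    rw [Derivation.leibniz, h, smul_zero, zero_add, smul_eq_mul, mul_comm] at h1
    exact h1
  refine ⟨cX, cG, ⟨hQ0 ▸ x0, hQ1 ▸ x1, hQ2 ▸ x2, hQ0 ▸ g0, hQ1 ▸ g1, hQ2 ▸ g2⟩, fun h hh => ⟨?_, ?_⟩⟩
  · refine os_der Xc s hC L0 hF.l0 hF.v0 _ (fun j => ?_) h hh
    refine ⟨E, Mp.adjugate j i1, Mp.det, ⟨?_, hDt, ?_⟩, hDs⟩
    · exact adj_hom Mp _ hMh i1 j (by rw [hd1, ← hE, Nat.sub_self, add_zero])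
    · have h1 := hCr (∑ l, cX l • dd l) j
      have h2 : ∑ i, aeval Xc (Mp.adjugate j i) * (∑ l, cX l • dd l) (aeval Xc (P i)) =
          aeval Xc (Mp.adjugate j i1) * aeval Xc L0 := by
        rw [Finset.sum_eq_single i1]
        · rw [hP, if_neg (Ne.symm n01), if_pos rfl, x1]
        · intro i _ hi
          rw [hP, x0, x2, if_neg hi]
          simp
        · exact fun h => absurd (Finset.mem_univ _) h
      rw [h2, ← hy _ x0 j, ← mul_assoc] at h1
      rw [mul_comm]
      exact mul_right_cancel₀ hL h1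
  · refine os_der Xc s hC L0 hF.l0 hF.v0 _ (fun j => ?_) h hh
    have hle : d i2 - 1 ≤ E := by
      rw [hE]
      exact Finset.single_le_sum (f := fun i => d i - 1) (fun _ _ => Nat.zero_le _)
        (Finset.mem_univ i2)
    refine ⟨E, Mp.adjugate j i2 * L0 ^ (m - 1), Mp.det, ⟨?_, hDt, ?_⟩, hDs⟩
    · have h1 := (adj_hom Mp _ hMh i2 j (n := E - (d i2 - 1)) (by omega)).mul (hF.l0.pow (m - 1))
      have h2 : E - (d i2 - 1) + 1 * (m - 1) = E := by
        rw [hd2] at hle ⊢
        omega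
      rw [h2] at h1
      exact h1
    · have h1 := hCr (∑ l, cG l • dd l) j
      have h2 : ∑ i, aeval Xc (Mp.adjugate j i) * (∑ l, cG l • dd l) (aeval Xc (P i)) =
          aeval Xc (Mp.adjugate j i2) * aeval Xc L0 ^ m := by
        rw [Finset.sum_eq_single i2]
        · rw [hP, if_neg (Ne.symm n02), if_neg (Ne.symm n12), if_pos rfl, g2]
        · intro i _ hi
          rw [hP, g0, g1, if_neg hi]
          simp
        · exact fun h => absurd (Finset.mem_univ _) h
      have h3 : aeval Xc L0 ^ m = aeval Xc L0 ^ (m - 1) * aeval Xc L0 := by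
        rw [← pow_succ]
        congr 1
        omega
      rw [h2, ← hy _ g0 j, h3, ← mul_assoc, ← mul_assoc] at h1
      rw [mul_comm, map_mul, map_pow]
      exact mul_right_cancel₀ hL h1

end Pool.Agent.H33.SF
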