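import Pool.Agent.H84.SF.Loc

/-!
# sfc board, REM: derivations and points on the powers of the maximal ideal
helper33
-/

set_option autoImplicit false

namespace Pool.Agent.H33.SF

open MvPolynomial SC
open Pool.Agent.H27.LV (ge deg poleOrder canDeg)
open Pool.Agent.H92.OD (HS cf sg uu Lat geO IsO DF DD geO_mono geO_add geO_mul geO_sg)
open Pool.Agent.H84.SM (y1 y2 Near)
open Pool.Agent.H84.SF

theorem der_mem {k O : Type} [Field k] [CommRing O] [Algebra k O] (I : Ideal O)
    (d : Derivation k O O) (N : ℕ) : ∀ r : O, r ∈ I ^ (N + 1) → d r ∈ I ^ N := by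
  induction N with
  | zero =>
    intro r _
    rw [pow_zero, Ideal.one_eq_top]
    exact Submodule.mem_top
  | succ N ih =>
    intro r hr
    rw [pow_succ] at hr
    refine Submodule.mul_induction_on hr (fun a ha b hb => ?_) (fun a b ha hb => ?_)
    · rw [Derivation.leibniz, smul_eq_mul, smul_eq_mul]
      refine Ideal.add_mem _ (Ideal.mul_mem_right _ _ ha) ?_
      rw [pow_succ, mul_comm b (d a)]
      exact Ideal.mul_mem_mul (ih a ha) hb
    · rw [map_add]
      exact Ideal.add_mem _ ha hb

theorem pt_mem {k O : Type} [Field k] [CommRing O] [Algebra k O] (X G : O)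
    (x : O →ₐ[k] HS k) (hx : Pnt X G x) (ρ : ℚ) (h1 : ρ ≤ 1) (hG : geO ρ (x G)) (N : ℕ) :
    ∀ r : O, r ∈ Ideal.span {X, G} ^ N → geO (N * ρ) (x r) := by
  induction N with
  | zero =>
    intro r _
    rw [Nat.cast_zero, zero_mul]
    exact hx.int r
  | succ N ih =>
    intro r hr
    rw [pow_succ] at hr
    refine Submodule.mul_induction_on hr (fun a ha b hb => ?_) (fun a b ha hb => ?_)
    · obtain ⟨c, e, hce⟩ := Ideal.mem_span_pair.mp hb
      have h2 : geO ρ (x b) := by
        rw [← hce, map_add, map_mul, map_mul, hx.eqX]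
        refine geO_add ?_ ?_
        · have h3 := geO_mul (hx.int c) (geO_mono (geO_sg (1 : ℚ) (1 : k)) h1)
          rw [zero_add] at h3
          exact h3
        · have h3 := geO_mul (hx.int e) hG
          rw [zero_add] at h3
          exact h3
      have h4 := geO_mul (ih a ha) h2
      rw [map_mul]
      have h5 : ((N + 1 : ℕ) : ℚ) * ρ = N * ρ + ρ := by
        push_cast
        ring
      rw [h5]
      exact h4
    · rw [map_add]
      exact geO_add ha hb

theorem pf_REM : T_REM := by
  intro k O _ _ _ ε X G dX dG _ N r hr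
  refine ⟨der_mem _ dX N r hr, der_mem _ dG N r hr, fun x hx ρ _ h1 hG => ?_⟩
  have h := pt_mem X G x hx ρ h1 hG (N + 1) r hr
  rw [Nat.cast_add, Nat.cast_one] at h
  exact h

end Pool.Agent.H33.SF
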