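import Pool.Agent.H84.SF.Geo2
import Pool.Agent.H33.SF.CRM
import Pool.Agent.H96.SM.IRR
import Pool.Agent.H51.SM.FNS
import Pool.Agent.H62.HIL.Eig

/-!
# sfc board, FNY: finitely many points of `D` with `A = 0`
helper33
-/

set_option autoImplicit false

namespace Pool.Agent.H33.SF

open MvPolynomial SC
open Pool.Agent.H27.LV (ge deg poleOrder canDeg)
open Pool.Agent.H84.SM (y1 y2 Near cr dt dp)
open Pool.Agent.H3.SF (Itg Bb BB Hm eu grd hes Sfc Crd Cnn Crf Prm nv)
open Pool.Agent.H84.SF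

section

variable {k F : Type} [Field k] [Field F] [Algebra k F]

theorem itg_aeval {ι : Type} (u : ι → F) (p : MvPolynomial ι k) : Itg k u (aeval u p) := by
  have h := ((aeval u : MvPolynomial ι k →ₐ[k] F) : MvPolynomial ι k →+* F).isIntegralElem_map
    (x := p)
  exact h

theorem itg_sum {ι τ : Type} (u : ι → F) (s : Finset τ) (f : τ → F)
    (h : ∀ i ∈ s, Itg k u (f i)) : Itg k u (∑ i ∈ s, f i) :=
  (Bb k u).sum_mem fun i hi => h i hi

theorem itg_mul {ι : Type} (u : ι → F) {a b : F} (ha : Itg k u a) (hb : Itg k u b) :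
    Itg k u (a * b) :=
  (Bb k u).mul_mem ha hb

theorem itg_pow {ι : Type} (u : ι → F) {a : F} (ha : Itg k u a) (n : ℕ) : Itg k u (a ^ n) :=
  (Bb k u).pow_mem ha n

theorem itg_add {ι : Type} (u : ι → F) {a b : F} (ha : Itg k u a) (hb : Itg k u b) :
    Itg k u (a + b) :=
  (Bb k u).add_mem ha hb

theorem itg_neg {ι : Type} (u : ι → F) {a : F} (ha : Itg k u a) : Itg k u (-a) :=
  (Bb k u).neg_mem ha

/-- an integral equation gives a form which is divisible by `G` -/
theorem low_coeff (u : Fin 3 → F) (G : F) (hG : G ≠ 0)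
    (hGi : Itg k u G) (N : ℕ) (c : Fin N → MvPolynomial (Fin 3) k)
    (h : G ^ N + ∑ i, aeval u (c i) * G ^ (i : ℕ) = 0) :
    ∃ i, c i ≠ 0 ∧ Itg k u (aeval u (c i) / G) := by
  classical
  have hne : (Finset.univ.filter fun i => c i ≠ 0).Nonempty := by
    by_contra hcon
    rw [Finset.not_nonempty_iff_eq_empty, Finset.filter_eq_empty_iff] at hcon
    have h1 : ∑ i, aeval u (c i) * G ^ (i : ℕ) = 0 := by
      refine Finset.sum_eq_zero fun i _ => ?_
      have h2 : c i = 0 := not_not.mp (hcon (Finset.mem_univ i))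
      rw [h2, map_zero, zero_mul]
    rw [h1, add_zero] at h
    exact pow_ne_zero _ hG h
  obtain ⟨i0, hi0⟩ : ∃ i0, i0 = (Finset.univ.filter fun i => c i ≠ 0).min' hne := ⟨_, rfl⟩
  have hc0 : c i0 ≠ 0 := by
    have := Finset.min'_mem _ hne
    rw [← hi0] at this
    exact (Finset.mem_filter.1 this).2
  have hlt : ∀ i, i < i0 → c i = 0 := by
    intro i hi
    by_contra hcon
    have := Finset.min'_le (Finset.univ.filter fun i => c i ≠ 0) i
      (Finset.mem_filter.2 ⟨Finset.mem_univ _, hcon⟩)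
    rw [← hi0] at this
    exact absurd hi (not_lt.2 this)
  refine ⟨i0, hc0, ?_⟩
  obtain ⟨R, hR⟩ : ∃ R : F, R = G ^ (N - i0 - 1) +
    ∑ i ∈ Finset.univ.filter (fun i => i0 < i), aeval u (c i) * G ^ ((i : ℕ) - i0 - 1) := ⟨_, rfl⟩
  have hsum : ∑ i, aeval u (c i) * G ^ (i : ℕ) = aeval u (c i0) * G ^ (i0 : ℕ) +
      ∑ i ∈ Finset.univ.filter (fun i => i0 < i), aeval u (c i) * G ^ (i : ℕ) := by
    rw [← Finset.add_sum_erase Finset.univ _ (Finset.mem_univ i0)]
    congr 1
    symm
    refine Finset.sum_subset (fun i hi => ?_) (fun i hi hi' => ?_)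
    · exact Finset.mem_erase.2 ⟨(Finset.mem_filter.1 hi).2.ne', Finset.mem_univ _⟩
    · have h1 : ¬ i0 < i := fun h2 => hi' (Finset.mem_filter.2 ⟨Finset.mem_univ _, h2⟩)
      have h2 : i < i0 := lt_of_le_of_ne (not_lt.1 h1) (Finset.mem_erase.1 hi).1
      rw [hlt i h2, map_zero, zero_mul]
  have hRG : R * G ^ ((i0 : ℕ) + 1) = G ^ N +
      ∑ i ∈ Finset.univ.filter (fun i => i0 < i), aeval u (c i) * G ^ (i : ℕ) := by
    rw [hR, add_mul, ← pow_add, Finset.sum_mul]
    congr 1
    · congr 1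
      have := i0.isLt
      omega
    · refine Finset.sum_congr rfl fun i hi => ?_
      rw [mul_assoc, ← pow_add]
      congr 2
      have h1 : i0 < i := (Finset.mem_filter.1 hi).2
      have h2 : (i0 : ℕ) < (i : ℕ) := h1
      omega
  have hfin : aeval u (c i0) / G = -R := by
    rw [div_eq_iff hG]
    have h3 : (aeval u (c i0) + R * G) * G ^ (i0 : ℕ) = 0 := by
      have h4 : (aeval u (c i0) + R * G) * G ^ (i0 : ℕ) =
          aeval u (c i0) * G ^ (i0 : ℕ) + R * G ^ ((i0 : ℕ) + 1) := by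
        rw [pow_succ]
        ring
      rw [h4, hRG, ← h, hsum]
      ring
    have h5 := (mul_eq_zero.mp h3).resolve_right (pow_ne_zero _ hG)
    rw [neg_mul]
    exact eq_neg_of_add_eq_zero_left h5
  rw [hfin, hR]
  exact itg_neg u (itg_add u (itg_pow u hGi _)
    (itg_sum u _ _ fun i _ => itg_mul u (itg_aeval u _) (itg_pow u hGi _)))

/-- an irreducible factor which is divisible by `G` -/
theorem irr_factor (u : Fin 3 → F) (G : F)
    (hprm : ∀ a b, Itg k u a → Itg k u b → Itg k u (a * b / G) → Itg k u (a / G) ∨ Itg k u (b / G))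
    (hun : ∀ r : k, r ≠ 0 → ¬ Itg k u (algebraMap k F r / G)) (p : MvPolynomial (Fin 3) k) :
    p ≠ 0 → Itg k u (aeval u p / G) → ∃ q, Irreducible q ∧ q ∣ p ∧ Itg k u (aeval u q / G) := by
  induction p using WfDvdMonoid.induction_on_irreducible with
  | zero => exact fun h => absurd rfl h
  | unit p hp =>
    intro _ h
    obtain ⟨r, hr, hrp⟩ := MvPolynomial.isUnit_iff_eq_C_of_isReduced.mp hp
    rw [hrp, aeval_C] at h
    exact absurd h (hun r hr.ne_zero)
  | mul a i ha hi ih =>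
    intro _ h
    rw [map_mul] at h
    rcases hprm _ _ (itg_aeval u i) (itg_aeval u a) h with h1 | h1
    · exact ⟨i, hi, dvd_mul_right _ _, h1⟩
    · obtain ⟨q, h2, h3, h4⟩ := ih ha h1
      exact ⟨q, h2, h3.trans (dvd_mul_left _ _), h4⟩

end

theorem pf_FNY (hHIE : T_HIE) (hEVS : T_EVS) (hDGN : T_DGN) : T_FNY := by
  classical
  intro k F σ _ _ _ _ _ _ Xc u dd J j0 m G GP hS hD α A hA hA0 hαm
  have hF0 : CharZero F := charZero_of_injective_algebraMap (algebraMap k F).injective
  obtain ⟨hD1, -⟩ := hDGN k F u dd hS.ddu hS.ind m G hD.crd.ne hD.crd.hom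
  have heu : ∀ i, Hm k (eu u dd) 1 (u i) := by
    intro i
    have h1 : eu u dd (u i) = u i := by
      have h2 : eu u dd (u i) = ∑ l, u l * dd l (u i) := dsum_apply dd u (u i)
      rw [h2]
      simp only [hS.ddu, mul_ite, mul_one, mul_zero]
      rw [Finset.sum_ite_eq' Finset.univ i, if_pos (Finset.mem_univ _)]
    unfold Hm
    rw [h1]
    simp
  choose U0 hU1 hU2 using hS.ulin
  have hcomp : ∀ p : MvPolynomial (Fin 3) k, aeval Xc (aeval U0 p) = aeval u p := by
    intro p
    rw [← AlgHom.comp_apply]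
    congr 1
    apply MvPolynomial.algHom_ext
    intro i
    rw [AlgHom.comp_apply, aeval_X, aeval_X, hU2]
  have hevs : ∀ (s : σ → k) (p : MvPolynomial (Fin 3) k),
      eval s (aeval U0 p) = eval (fun l => eval s (U0 l)) p := by
    intro s p
    have h1 : (eval s : MvPolynomial σ k →+* k).comp
        ((aeval U0 : MvPolynomial (Fin 3) k →ₐ[k] MvPolynomial σ k) :
          MvPolynomial (Fin 3) k →+* MvPolynomial σ k) =
        eval (fun l => eval s (U0 l)) := by
      refine MvPolynomial.ringHom_ext (fun r => ?_) (fun i => ?_)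
      · rw [RingHom.comp_apply, eval_C]
        show eval s (aeval U0 (C r)) = r
        rw [aeval_C, algebraMap_eq, eval_C]
      · rw [RingHom.comp_apply, eval_X]
        show eval s (aeval U0 (X i)) = _
        rw [aeval_X]
    rw [← h1]
    rfl
  -- the irreducible form
  obtain ⟨N, c, hch, hce⟩ := hHIE k F u dd hS.ddu G m hD.crd.itg hD.crd.hom
  obtain ⟨i0, hi0, hi1⟩ := low_coeff u G hD.crd.ne hD.crd.itg N c hce
  obtain ⟨q, hq, ⟨r, hqr⟩, hqG⟩ := irr_factor u G hD.crd.prm (fun r hr => by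
    refine hD1 (algebraMap k F r) 0 ?_ ?_ ?_ ?_
    · rw [Ne, FaithfulSMul.algebraMap_eq_zero_iff]
      exact hr
    · exact (Bb k u).algebraMap_mem r
    · exact Pool.Agent.H62.HIL.hm_algebraMap r
    · have := hD.two
      omega) (c i0) hi0 hi1
  have hr0 : r ≠ 0 := by
    rintro rfl
    rw [mul_zero] at hqr
    exact hi0 hqr
  obtain ⟨b, b', -, hqh, -⟩ := Pool.Agent.H96.SM.homog_mul (p := q) (q := r)
    (by rw [← hqr]; exact hch i0) hq.ne_zero hr0
  have hqA : ¬ q ∣ A := by
    rintro ⟨w, hw⟩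
    refine hD1 (aeval u A) α ?_ (itg_aeval u A) (Pool.Agent.H62.HIL.hm_aeval heu hA) hαm ?_
    · intro h
      exact hA0 (hS.ind (by rw [h, map_zero]))
    · rw [hw, map_mul, mul_div_right_comm]
      exact itg_mul u hqG (itg_aeval u w)
  obtain ⟨T0, -, hT0⟩ := Pool.Agent.H51.SM.pf_FNS k q A b α hqh hA hq hqA
  -- the equations of the coordinates
  have hXh : ∀ i, Hm k (eu u dd) (1 : ℕ) (Xc i) := by
    intro i
    unfold Hm
    rw [hS.Xeu]
    simp
  choose n e heh hee using fun i => hHIE k F u dd hS.ddu (Xc i) 1 (hS.Xint i) (hXh i)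
  obtain ⟨pl, hpl⟩ : ∃ pl : (Fin 3 → k) → σ → Polynomial k, ∀ a i, pl a i =
      Polynomial.X ^ n i + ∑ j, Polynomial.C (eval a (e i j)) * Polynomial.X ^ (j : ℕ) :=
    ⟨_, fun _ _ => rfl⟩
  have hpl0 : ∀ a i, pl a i ≠ 0 := by
    intro a i h
    have h1 : (pl a i).coeff (n i) = 1 := by
      rw [hpl, Polynomial.coeff_add, Polynomial.coeff_X_pow_self, Polynomial.finsetSum_coeff,
        Finset.sum_eq_zero, add_zero]
      intro j _
      rw [Polynomial.coeff_C_mul, Polynomial.coeff_X_pow, if_neg (by have := j.isLt; omega),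
        mul_zero]
    rw [h, Polynomial.coeff_zero] at h1
    exact zero_ne_one h1
  refine ⟨T0.biUnion fun a => Fintype.piFinset fun i => (pl a i).roots.toFinset, ?_⟩
  intro s hs0 hC hsG hsA
  obtain ⟨us, hus⟩ : ∃ us : Fin 3 → k, us = fun l => eval s (U0 l) := ⟨_, rfl⟩
  have hAs : eval us A = 0 := by
    rw [hus]
    exact hsA U0 hU2
  -- `q` vanishes
  have hqs : eval us q = 0 := by
    obtain ⟨ev, hev⟩ := hEVS k F σ Xc u dd J j0 hS s hC
    obtain ⟨g, hg⟩ : ∃ g : Bb k u, (g : F) = G := ⟨⟨G, hD.crd.itg⟩, rfl⟩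
    obtain ⟨w, hw⟩ : ∃ w : Bb k u, (w : F) = aeval u q / G := ⟨⟨_, hqG⟩, rfl⟩
    obtain ⟨q1, hq1⟩ : ∃ q1 : Bb k u, (q1 : F) = aeval u q := ⟨⟨_, itg_aeval u q⟩, rfl⟩
    have h1 : ev g = 0 := by
      rw [hev GP g (by rw [hg, hD.val]), hsG]
    have h2 : q1 = w * g := by
      apply Subtype.ext
      show (q1 : F) = (w : F) * (g : F)
      rw [hq1, hw, hg, div_mul_cancel₀ _ hD.crd.ne]
    have h3 : ev q1 = eval us q := by
      rw [hev (aeval U0 q) q1 (by rw [hq1, hcomp]), hevs, hus]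
    rw [← h3, h2, map_mul, h1, mul_zero]
  -- the equations at `s`
  have hse : ∀ i, s i ^ n i + ∑ j, eval us (e i j) * s i ^ (j : ℕ) = 0 := by
    intro i
    have h1 : aeval Xc ((MvPolynomial.X i) ^ n i +
        ∑ j, aeval U0 (e i j) * (MvPolynomial.X i) ^ (j : ℕ) : MvPolynomial σ k) = 0 := by
      rw [← hee i, map_add, map_sum, map_pow, aeval_X]
      congr 1
      refine Finset.sum_congr rfl fun j _ => ?_
      rw [map_mul, map_pow, aeval_X, hcomp]
    have h2 := hC.pt _ h1
    rw [map_add, map_sum, map_pow, eval_X] at h2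
    rw [← h2]
    congr 1
    refine Finset.sum_congr rfl fun j _ => ?_
    rw [map_mul, map_pow, eval_X, hevs, hus]
  have hus0 : us ≠ 0 := by
    intro h
    apply hs0
    funext i
    have h1 := hse i
    have h2 : ∑ j, eval us (e i j) * s i ^ (j : ℕ) = 0 := by
      refine Finset.sum_eq_zero fun j _ => ?_
      have h3 : eval us (e i j) = 0 := by
        have h4 : constantCoeff (e i j) = 0 :=
          Pool.Agent.H96.SM.const_homog (heh i j) (by have := j.isLt; omega)
        rw [h, ← h4, constantCoeff_eq, MvPolynomial.eval_zero]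
        rfl
      rw [h3, zero_mul]
    rw [h2, add_zero] at h1
    exact eq_zero_of_pow_eq_zero h1
  obtain ⟨a, ha, z, hz, hza⟩ := hT0 us hus0 hqs hAs
  refine ⟨fun i => z⁻¹ * s i, Finset.mem_biUnion.2 ⟨a, ha, Fintype.mem_piFinset.2 fun i => ?_⟩,
    z, hz, ?_⟩
  · rw [Multiset.mem_toFinset, Polynomial.mem_roots (hpl0 a i), Polynomial.IsRoot.def, hpl,
      Polynomial.eval_add, Polynomial.eval_pow, Polynomial.eval_X, Polynomial.eval_finsetSum]
    simp only [Polynomial.eval_mul, Polynomial.eval_C, Polynomial.eval_pow, Polynomial.eval_X]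
    have h1 : z ^ n i * ((z⁻¹ * s i) ^ n i + ∑ j, eval a (e i j) * (z⁻¹ * s i) ^ (j : ℕ)) = 0 := by
      rw [← hse i, mul_add, Finset.mul_sum]
      congr 1
      · rw [mul_pow, ← mul_assoc, ← mul_pow, mul_inv_cancel₀ hz, one_pow, one_mul]
      · refine Finset.sum_congr rfl fun j _ => ?_
        have h2 : eval us (e i j) = eval a (e i j) * z ^ ((n i - (j : ℕ)) * 1) := by
          have h3 := hom_scale (c := z) a (heh i j)
          have h4 : (fun i => a i * z) = us := by
            rw [hza]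
            funext l
            exact mul_comm _ _
          rw [h4] at h3
          exact h3
        have h5 : z ^ n i = z ^ ((n i - (j : ℕ)) * 1) * z ^ (j : ℕ) := by
          rw [← pow_add]
          congr 1
          have := j.isLt
          omega
        have h6 : z ^ (j : ℕ) * (z⁻¹ * s i) ^ (j : ℕ) = s i ^ (j : ℕ) := by
          rw [← mul_pow, ← mul_assoc, mul_inv_cancel₀ hz, one_mul]
        rw [h2, ← h6, h5]
        ring
    exact (mul_eq_zero.mp h1).resolve_left (pow_ne_zero _ hz)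
  · funext i
    show s i = z * (z⁻¹ * s i)
    rw [← mul_assoc, mul_inv_cancel₀ hz, one_mul]

end Pool.Agent.H33.SF
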