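import Pool.Agent.H84.SF.Geo
import Pool.Agent.H68.SF.APX
import Pool.Agent.H33.SF.REM
import Pool.Agent.H78.LV.Ge

/-!
# sfc board, CHK: the chain rule over the function field of a curve
helper33
-/

set_option autoImplicit false

namespace Pool.Agent.H33.SF

open MvPolynomial SC
open Pool.Agent.H27.LV (ge deg poleOrder canDeg)
open Pool.Agent.H27.LV.Ge (ge_mono ge_imp ge_add ge_mul ge_neg)
open Pool.Agent.H84.SF

theorem ge_pow_mem {k O K : Type} [Field k] [CommRing O] [Algebra k O] [Field K]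
    [Algebra k K] (ε : O →ₐ[k] k) (X G : O) (dX dG : Derivation k O O) (hF : Frm ε X G dX dG)
    (x : O →ₐ[k] K) (v : DV k K) (h0 : ∀ h, ge v 0 (x h)) (h1 : ∀ h, ε h = 0 → ge v 1 (x h))
    (N : ℕ) : ∀ r : O, r ∈ Ideal.span {X, G} ^ N → ge v N (x r) := by
  induction N with
  | zero =>
    intro r _
    exact h0 r
  | succ N ih =>
    intro r hr
    rw [pow_succ] at hr
    refine Submodule.mul_induction_on hr (fun a ha b hb => ?_) (fun a b ha hb => ?_)
    · obtain ⟨c, e, hce⟩ := Ideal.mem_span_pair.mp hb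
      have hb0 : ε b = 0 := (hF.max b).2 ⟨c, e, hce.symm⟩
      rw [map_mul, Nat.cast_add, Nat.cast_one]
      exact ge_mul v (ih a ha) (h1 b hb0)
    · rw [map_add]
      exact ge_add v ha hb

theorem chk_poly {k O K : Type} [Field k] [CommRing O] [Algebra k O] [Field K] [Algebra k K]
    (ε : O →ₐ[k] k) (X G : O) (dX dG : Derivation k O O) (hF : Frm ε X G dX dG)
    (x : O →ₐ[k] K) (D : Derivation k K K) (P : MvPolynomial (Fin 2) k) :
    D (x (aeval ![X, G] P)) = x (dX (aeval ![X, G] P)) * D (x X) +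
      x (dG (aeval ![X, G] P)) * D (x G) := by
  have hgen : ∀ i : Fin 2, D (x (![X, G] i)) = x (dX (![X, G] i)) * D (x X) +
      x (dG (![X, G] i)) * D (x G) := by
    rw [Fin.forall_fin_two]
    constructor
    · show D (x X) = x (dX X) * D (x X) + x (dG X) * D (x G)
      rw [hF.xx, hF.gx, map_one, map_zero]
      ring
    · show D (x G) = x (dX G) * D (x X) + x (dG G) * D (x G)
      rw [hF.xg, hF.gg, map_one, map_zero]
      ring
  induction P using MvPolynomial.induction_on with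
  | C c =>
    rw [aeval_C, Derivation.map_algebraMap, Derivation.map_algebraMap, map_zero, zero_mul, zero_mul,
      add_zero, AlgHom.commutes, Derivation.map_algebraMap]
  | add p q hp hq =>
    rw [map_add, map_add, map_add, map_add, map_add, map_add, map_add, hp, hq]
    ring
  | mul_X p i hp =>
    rw [map_mul, aeval_X, map_mul, Derivation.leibniz, hp, hgen i, Derivation.leibniz,
      Derivation.leibniz]
    simp only [smul_eq_mul, map_add, map_mul]
    ring

theorem exists_ge {k K : Type} [Field k] [Field K] [Algebra k K] (v : DV k K) (y : K) :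
    ∃ n : ℕ, ge v (-(n : ℤ)) y :=
  ⟨(v.ord y).natAbs, Or.inr (by omega)⟩

theorem pf_CHK : T_CHK := by
  intro k O K _ _ _ _ _ _ ε X G dX dG hF x v h0 h1 D hD h
  obtain ⟨e, he⟩ := hD
  obtain ⟨en, hen⟩ : ∃ n : ℕ, e ≤ n := ⟨e.toNat, by omega⟩
  obtain ⟨n1, hn1⟩ := exists_ge v (D (x X))
  obtain ⟨n2, hn2⟩ := exists_ge v (D (x G))
  have key : ∀ N : ℕ, ge v ((N : ℤ) - (en + n1 + n2))
      (D (x h) - (x (dX h) * D (x X) + x (dG h) * D (x G))) := by
    intro N
    obtain ⟨P, r, hr, hh⟩ := Pool.Agent.H68.SF.pf_APX k O ε X G dX dG hF (N + 1) h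
    have e1 : D (x h) - (x (dX h) * D (x X) + x (dG h) * D (x G)) =
        D (x r) + -(x (dX r) * D (x X) + x (dG r) * D (x G)) := by
      rw [hh, map_add, map_add, map_add, map_add, map_add, map_add,
        chk_poly ε X G dX dG hF x D P]
      ring
    rw [e1]
    have g1 := he _ _ (ge_pow_mem ε X G dX dG hF x v h0 h1 (N + 1) r hr)
    have g2 := ge_mul v (ge_pow_mem ε X G dX dG hF x v h0 h1 N _ (der_mem _ dX N r hr)) hn1
    have g3 := ge_mul v (ge_pow_mem ε X G dX dG hF x v h0 h1 N _ (der_mem _ dG N r hr)) hn2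
    refine ge_add v (ge_mono v ?_ g1) (ge_neg v (ge_add v (ge_mono v ?_ g2) (ge_mono v ?_ g3)))
    · push_cast
      omega
    · omega
    · omega
  by_contra hne
  have hne' : D (x h) - (x (dX h) * D (x X) + x (dG h) * D (x G)) ≠ 0 := fun h2 =>
    hne (sub_eq_zero.mp h2)
  obtain ⟨o, ho⟩ : ∃ o, o = v.ord (D (x h) - (x (dX h) * D (x X) + x (dG h) * D (x G))) := ⟨_, rfl⟩
  obtain ⟨on, hon⟩ : ∃ n : ℕ, o < n := ⟨o.toNat + 1, by omega⟩
  have h3 := ge_imp v (key (on + (en + n1 + n2))) hne'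
  rw [← ho] at h3
  push_cast at h3
  omega

end Pool.Agent.H33.SF
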