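import Pool.Agent.H33.SF.REM

/-!
# sfc board, CHR: the chain rule
helper33
-/

set_option autoImplicit false

namespace Pool.Agent.H33.SF

open MvPolynomial SC
open Pool.Agent.H27.LV (ge deg poleOrder canDeg)
open Pool.Agent.H92.OD (HS cf sg uu Lat geO IsO DF DD geO_mono geO_add geO_mul geO_sg geO_sub
  geO_DF hs_ext cf_sub cf_zero DF_add DF_mul DF_uu DD_apply)
open Pool.Agent.H84.SM (y1 y2 Near)
open Pool.Agent.H84.SF

theorem chr_poly {k O : Type} [Field k] [CharZero k] [CommRing O] [Algebra k O]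
    (ε : O →ₐ[k] k) (X G : O) (dX dG : Derivation k O O) (hF : Frm ε X G dX dG)
    (x : O →ₐ[k] HS k) (hx : Pnt X G x) (P : MvPolynomial (Fin 2) k) :
    DF (x (aeval ![X, G] P)) = uu k * x (dX (aeval ![X, G] P)) +
      x (dG (aeval ![X, G] P)) * DF (x G) := by
  have hgen : ∀ i : Fin 2, DF (x (![X, G] i)) = uu k * x (dX (![X, G] i)) +
      x (dG (![X, G] i)) * DF (x G) := by
    rw [Fin.forall_fin_two]
    constructor
    · show DF (x X) = uu k * x (dX X) + x (dG X) * DF (x G)
      rw [hF.xx, hF.gx, map_one, map_zero, hx.eqX, DF_uu]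
      ring
    · show DF (x G) = uu k * x (dX G) + x (dG G) * DF (x G)
      rw [hF.xg, hF.gg, map_one, map_zero]
      ring
  induction P using MvPolynomial.induction_on with
  | C c =>
    rw [aeval_C, Derivation.map_algebraMap, Derivation.map_algebraMap, map_zero, mul_zero, zero_mul,
      add_zero, AlgHom.commutes, ← DD_apply k, Derivation.map_algebraMap]
  | add p q hp hq =>
    rw [map_add, map_add, DF_add, map_add, map_add, map_add, map_add, hp, hq]
    ring
  | mul_X p i hp =>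
    rw [map_mul, aeval_X, map_mul, DF_mul, hp, hgen i, Derivation.leibniz, Derivation.leibniz]
    simp only [smul_eq_mul, map_add, map_mul]
    ring

theorem pf_CHR (hAPX : T_APX) (hREM : T_REM) : T_CHR := by
  intro k O _ _ _ _ ε X G dX dG hF x hx h
  have _ := hREM
  obtain ⟨r0, hr0, hG0⟩ := hx.pos
  obtain ⟨ρ, hρ0, hρ1, hG⟩ : ∃ ρ : ℚ, 0 < ρ ∧ ρ ≤ 1 ∧ geO ρ (x G) :=
    ⟨min r0 1, lt_min hr0 one_pos, min_le_right _ _, geO_mono hG0 (min_le_left _ _)⟩
  have key : ∀ N : ℕ, geO (N * ρ)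
      (DF (x h) - (uu k * x (dX h) + x (dG h) * DF (x G))) := by
    intro N
    obtain ⟨P, r, hr, hh⟩ := hAPX k O ε X G dX dG hF (N + 1) h
    have e1 : DF (x h) - (uu k * x (dX h) + x (dG h) * DF (x G)) =
        DF (x r) - (uu k * x (dX r) + x (dG r) * DF (x G)) := by
      rw [hh, map_add, map_add, map_add, map_add, map_add, DF_add,
        chr_poly ε X G dX dG hF x hx P]
      ring
    rw [e1]
    have hN0 : (0 : ℚ) ≤ N * ρ := by positivity
    refine geO_sub (geO_DF (geO_mono (pt_mem X G x hx ρ hρ1 hG (N + 1) r hr) ?_))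
      (geO_add ?_ ?_)
    · push_cast
      nlinarith
    · have h1 := geO_mul (geO_sg (1 : ℚ) (1 : k)) (pt_mem X G x hx ρ hρ1 hG N _ (der_mem _ dX N r hr))
      exact geO_mono h1 (by linarith)
    · have h1 := geO_mul (pt_mem X G x hx ρ hρ1 hG N _ (der_mem _ dG N r hr)) (geO_DF (hx.int G))
      rw [add_zero] at h1
      exact h1
  have hz : DF (x h) - (uu k * x (dX h) + x (dG h) * DF (x G)) = 0 := by
    refine hs_ext fun s => ?_
    obtain ⟨N, hN⟩ := exists_nat_gt (s / ρ)
    rw [cf_zero]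
    exact key N s ((div_lt_iff₀ hρ0).mp hN)
  exact sub_eq_zero.mp hz

end Pool.Agent.H33.SF
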