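import Pool.Agent.H9.SF.FDefs

/-! Module FO: elementary maps lift to generic extensions. -/

set_option linter.unusedVariables false

open Ordinal
open scoped ZFSet

namespace SF.H33

open SF

theorem app_cons (f x : V) (v : ℕ → V) :
    (fun i => app f (cons x v i)) = cons (app f x) (fun i => app f (v i)) := by
  funext i
  cases i <;> rfl

/-- elementary maps commute with definable functions -/
theorem elem_tm {N' N f : V} (hel : IsElem N' N f) (k' : ZFm (· ∈ N')) (k : ZFm (· ∈ N))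
    {F : (ℕ → V) → V} (hF : Tm ZFm (fun _ v => F v)) (v : ℕ → V) (hv : ∀ i, v i ∈ N') :
    app f (F v) = F (fun i => app f (v i)) := by
  obtain ⟨h0, φ, hφ⟩ := hF
  have h1 : F v ∈ N' := h0 (· ∈ N') k' v hv
  have h2 : In (· ∈ N') (cons (F v) v) := In.cons hv h1
  have h3 : Sat (· ∈ N') φ (cons (F v) v) := (hφ (· ∈ N') k' _ h2).2 rfl
  have h4 := (hel.el φ _ h2).1 h3
  rw [app_cons] at h4
  have h5 : In (· ∈ N) (cons (app f (F v)) fun i => app f (v i)) :=
    In.cons (fun i => app_mem hel.func (hv i)) (app_mem hel.func h1)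
  exact (hφ (· ∈ N) k _ h5).1 h4

theorem fo (hFC : T_FC) (hFG : T_FG) (hFH : T_FH) : T_FO := by
  intro N' N f c' r' c r G' G hel k' k hc' hr' hfc hfr hP' hP hG' hG hGG
  obtain ⟨-, hck, hgn, -, -, tck, tgn, -, -⟩ := hFH
  have hc : c ∈ N := hfc ▸ app_mem hel.func hc'
  have hr : r ∈ N := hfr ▸ app_mem hel.func hr'
  -- step A
  have hA1 : ∀ (φ : Fml) (x : ℕ → V), (∀ i, x i ∈ N') →
      Sat (Ext (· ∈ N') G') φ (fun i => val G' (x i)) →
      Sat (Ext (· ∈ N) G) φ (fun i => val G (app f (x i))) := by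
    intro φ x hx hs
    obtain ⟨p, hp, hfrc⟩ := (hFG (· ∈ N') c' r' G' k' hc' hr' hP' hG' φ x hx).1 hs
    obtain ⟨θ, hθ⟩ := hFC φ
    have hpN : p ∈ N' := k'.trans _ hc' p (hG'.1.sub hp)
    have hv : In (· ∈ N') (cons r' (cons p x)) := In.cons (In.cons hx hpN) hr'
    have h1 : Sat (· ∈ N') θ (cons r' (cons p x)) := (hθ (· ∈ N') k' _ hv).2 hfrc
    have h2 := (hel.el θ _ hv).1 h1
    rw [app_cons, app_cons, hfr] at h2
    have hv2 : In (· ∈ N) (fun i => app f (x i)) := fun i => app_mem hel.func (hx i)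
    have h3 := (hθ (· ∈ N) k _ (In.cons (In.cons hv2 (app_mem hel.func hpN)) hr)).1 h2
    exact (hFG (· ∈ N) c r G k hc hr hP hG φ _ hv2).2 ⟨app f p, hGG p hp, h3⟩
  have hA : ∀ (φ : Fml) (x : ℕ → V), (∀ i, x i ∈ N') →
      (Sat (Ext (· ∈ N') G') φ (fun i => val G' (x i)) ↔
      Sat (Ext (· ∈ N) G) φ (fun i => val G (app f (x i)))) := by
    intro φ x hx
    refine ⟨hA1 φ x hx, fun h => ?_⟩
    by_contra hn
    exact hA1 (.neg φ) x hx hn h
  -- the map is well defined
  have hwd : ∀ x ∈ N', ∀ y ∈ N', val G' x = val G' y → val G (app f x) = val G (app f y) := by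
    intro x hx y hy hxy
    have h1 := (hA (.eq 0 1) (cons x fun _ => y) (by
      intro i
      cases i with
      | zero => exact hx
      | succ i => exact hy)).1 hxy
    exact h1
  set g : V := imS N' fun x => ZFSet.pair (val G' x) (val G (app f x)) with hg
  have hgm : ∀ a b, ZFSet.pair a b ∈ g ↔ ∃ x ∈ N', val G' x = a ∧ val G (app f x) = b := by
    intro a b
    rw [hg, mem_imS]
    exact exists_congr fun x => and_congr_right fun _ => ZFSet.pair_inj
  have hsv : Svl g := by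
    intro a b b' h1 h2
    obtain ⟨x, hx, hxa, hxb⟩ := (hgm _ _).1 h1
    obtain ⟨y, hy, hya, hyb⟩ := (hgm _ _).1 h2
    rw [← hxb, ← hyb]
    exact hwd x hx y hy (hxa.trans hya.symm)
  have happ : ∀ x ∈ N', app g (val G' x) = val G (app f x) := fun x hx =>
    app_eq hsv ((hgm _ _).2 ⟨x, hx, rfl, rfl⟩)
  have hfun : ZFSet.IsFunc (extS N' G') (extS N G) g := by
    constructor
    · intro z hz
      rw [hg, mem_imS] at hz
      obtain ⟨x, hx, rfl⟩ := hz
      refine ZFSet.pair_mem_prod.2 ⟨mem_extS.2 ⟨x, hx, rfl⟩, mem_extS.2 ⟨app f x, ?_, rfl⟩⟩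
      exact app_mem hel.func hx
    · intro a ha
      obtain ⟨x, hx, rfl⟩ := mem_extS.1 ha
      refine ⟨val G (app f x), (hgm _ _).2 ⟨x, hx, rfl, rfl⟩, fun b hb => ?_⟩
      exact hsv _ _ _ hb ((hgm _ _).2 ⟨x, hx, rfl, rfl⟩)
  refine ⟨g, ⟨hfun, ?_⟩, ?_, ?_, happ⟩
  · intro φ v hv
    have h1 : ∀ i, ∃ x ∈ N', v i = val G' x := fun i => mem_extS.1 (hv i)
    choose x hx hxv using h1
    have e1 : v = fun i => val G' (x i) := funext hxv
    have e2 : (fun i => app g (v i)) = fun i => val G (app f (x i)) := by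
      funext i
      rw [hxv i, happ _ (hx i)]
    rw [e2, e1, ← ext_eq_extS, ← ext_eq_extS]
    exact hA φ x hx
  · intro x hx
    have hckN : ck c' x ∈ N' := tck.1 (· ∈ N') k' (cons c' fun _ => x) (In.cons (fun _ => hx) hc')
    have h1 := elem_tm hel k' k tck (cons c' fun _ => x) (In.cons (fun _ => hx) hc')
    rw [app_cons, hfc] at h1
    have h2 : app f (ck c' x) = ck c (app f x) := h1
    have h3 := happ _ hckN
    rw [hck c' G' x hG'.1.sub hG'.1.ne, h2, hck c G _ hG.1.sub hG.1.ne] at h3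
    exact h3
  · have hgN : gn c' ∈ N' := tgn.1 (· ∈ N') k' (fun _ => c') (fun _ => hc')
    have h1 := elem_tm hel k' k tgn (fun _ => c') (fun _ => hc')
    rw [hfc] at h1
    have h2 : app f (gn c') = gn c := h1
    have h3 := happ _ hgN
    rw [hgn c' G' hG'.1.sub hG'.1.ne, h2, hgn c G hG.1.sub hG.1.ne] at h3
    exact h3

end SF.H33
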