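import Pool.Agent.H9.SF.FD2

/-! Module FS: regular open sets. -/

set_option linter.unusedVariables false

open Ordinal
open scoped ZFSet

namespace SF.H33

open SF

theorem dfb_regO : Dfb ZFm (fun _ v => RegO (v 0) (v 1) (v 2)) := by
  have h2 : Dfb ZFm (fun M v => ∀ p ∈ v 2, ∀ q, M q → (ZFSet.pair q p ∈ v 1 → q ∈ v 2)) := by
    refine (Dfb.ball (R := fun M v => ∀ q, M q → (ZFSet.pair q (v 0) ∈ v 2 → q ∈ v 3)) ktr_zfm
      (Tm.var 2) ?_).congr fun M k v hv => Iff.rfl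
    exact (Dfb.all (R := fun _ v => ZFSet.pair (v 0) (v 1) ∈ v 3 → v 0 ∈ v 4)
      ((Dfb.pairMem (Tm.var 0) (Tm.var 1) (Tm.var 3)).imp
        (Dfb.mem (Tm.var 0) (Tm.var 4)))).congr fun M k v hv => Iff.rfl
  have h3 : Dfb ZFm (fun M v => ∀ p ∈ v 0, (∀ q, M q → (ZFSet.pair q p ∈ v 1 →
      ∃ q' ∈ v 2, ZFSet.pair q' q ∈ v 1)) → p ∈ v 2) := by
    refine (Dfb.ball (R := fun M v => (∀ q, M q → (ZFSet.pair q (v 0) ∈ v 2 →
      ∃ q' ∈ v 3, ZFSet.pair q' q ∈ v 2)) → v 0 ∈ v 3) ktr_zfm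
      (Tm.var 0) ?_).congr fun M k v hv => Iff.rfl
    refine Dfb.imp ?_ (Dfb.mem (Tm.var 0) (Tm.var 3))
    refine (Dfb.all (R := fun _ v => ZFSet.pair (v 0) (v 1) ∈ v 3 →
      ∃ q' ∈ v 4, ZFSet.pair q' (v 0) ∈ v 3) ?_).congr fun M k v hv => Iff.rfl
    refine (Dfb.pairMem (Tm.var 0) (Tm.var 1) (Tm.var 3)).imp ?_
    exact (Dfb.bex (R := fun _ v => ZFSet.pair (v 0) (v 1) ∈ v 4) ktr_zfm (Tm.var 4)
      (Dfb.pairMem (Tm.var 0) (Tm.var 1) (Tm.var 4))).congr fun M k v hv => Iff.rfl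
  refine ((Dfb.subset (Tm.var 2) (Tm.var 0)).and (h2.and h3)).congr fun M k v hv => ?_
  unfold RegO
  constructor
  · rintro ⟨a1, a2, a3⟩
    refine ⟨a1, fun p hp q hq => a2 p hp q (k.of_pair_mem (hv 1) hq).1 hq, fun p hp h => ?_⟩
    exact a3 p hp fun q _ hq => h q hq
  · rintro ⟨a1, a2, a3⟩
    refine ⟨a1, fun p hp q _ hq => a2 p hp q hq, fun p hp h => ?_⟩
    exact a3 p hp fun q hq => h q (k.of_pair_mem (hv 1) hq).1 hq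

theorem fs : T_FS := by
  refine ⟨dfb_regO, ?_⟩
  intro M c r G k hc hr hP hG O hO hreg
  constructor
  · rintro ⟨p, hpG, hpO⟩ ⟨p', hp'G, h⟩
    obtain ⟨s, hs, h1, h2⟩ := hG.1.dir p hpG p' hp'G
    exact h s h2 (hreg.2.1 p hpO s h1)
  · intro hn
    -- the dense set
    have hD : M (c.sep fun p => p ∈ O ∨ ∀ q, M q → (ZFSet.pair q p ∈ r → ¬ q ∈ O)) := by
      have h1 : Dfb ZFm (fun M v => v 0 ∈ v 3 ∨ ∀ q, M q → (ZFSet.pair q (v 0) ∈ v 2 →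
          ¬ q ∈ v 3)) := by
        refine (Dfb.mem (Tm.var 0) (Tm.var 3)).or ?_
        exact (Dfb.all (R := fun _ v => ZFSet.pair (v 0) (v 1) ∈ v 3 → ¬ v 0 ∈ v 4)
          ((Dfb.pairMem (Tm.var 0) (Tm.var 1) (Tm.var 3)).imp
            (Dfb.mem (Tm.var 0) (Tm.var 4)).not)).congr fun M k v hv => Iff.rfl
      exact (Tm.sep h1 (Tm.var 0)).1 M k (cons c (cons r (cons O fun _ => c)))
        (In.cons (In.cons (In.cons (fun _ => hc) hO) hr) hc)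
    obtain ⟨p, hpG, hpD⟩ := hG.2 _ hD ⟨ZFSet.sep_subset, fun p hp => by
      by_cases h : ∃ q, ZFSet.pair q p ∈ r ∧ q ∈ O
      · obtain ⟨q, hq, hqO⟩ := h
        exact ⟨q, ZFSet.mem_sep.2 ⟨hreg.1 hqO, Or.inl hqO⟩, hq⟩
      · refine ⟨p, ZFSet.mem_sep.2 ⟨hp, Or.inr fun q _ hq hqO => h ⟨q, hq, hqO⟩⟩, hP.refl p hp⟩⟩
    obtain ⟨-, h | h⟩ := ZFSet.mem_sep.1 hpD
    · exact ⟨p, hpG, h⟩
    · exact absurd ⟨p, hpG, fun q hq hqO => h q (k.of_pair_mem hr hq).1 hq hqO⟩ hn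

end SF.H33
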