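import Pool.Agent.H77.SF.KT2

/-!
# KGA: the values of acceptance and the embedding
-/

open Ordinal Cardinal Order Set
open scoped ZFSet

namespace SF

namespace H33

/-- the domain of the acceptance function -/
noncomputable def gaD : V :=
  (ZFSet.prod w1 (ZFSet.powerset w1)).sep fun q => snd q ⊆ fst q

/-- the acceptance function of the base algebra -/
noncomputable def gaA : V := resS gaD fun q => (acc (fst q) (snd q)).val

theorem gaf_eq (hYD : T_YD) (A : BA) :
    gaf A = resS (dm gaA) fun q => app A.g.gr (app gaA q) := by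
  unfold gaA
  rw [dm_resS]
  refine resS_congr fun q hq => ?_
  have h1 : app (resS gaD fun q => (acc (fst q) (snd q)).val) q =
      (acc (fst q) (snd q)).val := app_resS (F := fun q => (acc (fst q) (snd q)).val) hq
  rw [h1]
  exact ((hYD.1 B0 A.B A.g).2 _).symm

theorem prod_mem {κ : Ordinal.{0}} (hP : ∀ x ∈ V_ κ, ZFSet.powerset x ∈ V_ κ)
    (hS : ∀ x ∈ V_ κ, ∀ y ⊆ x, y ∈ V_ κ) {x y : V} (hx : x ∈ V_ κ) (hy : y ∈ V_ κ) :
    ZFSet.prod x y ∈ V_ κ := by
  have h1 : x ∪ y ∈ V_ κ := by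
    rw [ZFSet.mem_vonNeumann, ZFSet.rank_union]
    exact max_lt (ZFSet.mem_vonNeumann.1 hx) (ZFSet.mem_vonNeumann.1 hy)
  refine hS _ (hP _ (hP _ h1)) _ fun z hz => ?_
  unfold ZFSet.prod ZFSet.pairSep at hz
  exact (ZFSet.mem_sep.1 hz).1

theorem tm_ga : Tm KPw (fun _ v => resS (dm (v 0)) fun q => app (v 1) (app (v 0) q)) := by
  have h : Tm ZFm (fun M v => resS (dm (v 0)) fun x => app (cons x v 2) (app (cons x v 1)
      (cons x v 0))) :=
    Tm.resS (g := fun _ v => app (v 2) (app (v 1) (v 0))) (Tm.dm (Tm.var 0))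
      (Tm.app (Tm.var 2) (Tm.app (Tm.var 1) (Tm.var 0)))
  exact (h.mono (K' := KPw) fun _ h => h.1).congr fun _ _ _ _ => rfl

/-- KGA. The values of acceptance and the embedding. -/
theorem kga (hKO : T_KO) (hKV : T_KV) (hUV : T_UV) (hYD : T_YD) : T_KGA := by
  intro κ' κ lam' lam j hj A' A h1 h2
  have hI := hKV κ' hj.inac'
  obtain ⟨-, V2, V3, -, -, V6, -⟩ := hUV _ hI
  have hw : w1 ∈ V_ κ'.ord := by
    rw [ZFSet.mem_vonNeumann]
    unfold w1
    rw [Ordinal.rank_toZFSet]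
    exact hI.big
  have ha : gaA ∈ V_ κ'.ord := by
    refine V3 _ (prod_mem V2 V3 (prod_mem V2 V3 hw (V2 _ hw)) V6) _ fun z hz => ?_
    obtain ⟨q, hq, rfl⟩ := mem_resS.1 hz
    exact ZFSet.pair_mem_prod.2 ⟨(ZFSet.mem_sep.1 hq).1, (acc (fst q) (snd q)).mem⟩
  have hal : gaA ∈ V_ lam' := ZFSet.vonNeumann_subset_of_le hj.lt'.le ha
  obtain ⟨h3, h4⟩ := hKO κ' κ lam' lam j hj
    (fun v => resS (dm (v 0)) fun q => app (v 1) (app (v 0) q)) tm_ga
    (fun n => match n with
      | 0 => gaA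
      | _ + 1 => A'.g.gr) (fun n => by
        match n with
        | 0 => exact hal
        | _ + 1 => exact h1)
  rw [gaf_eq hYD A', gaf_eq hYD A]
  refine ⟨h3, h4.trans ?_⟩
  show (resS (dm (app j gaA)) fun q => app (app j A'.g.gr) (app (app j gaA) q)) = _
  rw [hj.fix _ ha, h2]

end H33

end SF
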