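import Pool.Agent.H77.SF.KT2

/-!
# KRO: the regular open algebra is a definable function
-/

open Ordinal Cardinal Order Set
open scoped ZFSet

namespace SF

namespace H33

/-- the condition on regular open sets -/
def rocnd (O P L : V) : Prop :=
  (∀ p ∈ O, ∀ q ∈ P, ZFSet.pair q p ∈ L → q ∈ O) ∧
    ∀ p ∈ P, (∀ q ∈ P, ZFSet.pair q p ∈ L → ∃ r ∈ O, ZFSet.pair r q ∈ L) → p ∈ O

theorem dfb_rocnd : Dfb ZFm (fun _ v => rocnd (v 0) (v 1) (v 2)) := by
  have h1 : Dfb ZFm (fun _ v => ∀ p ∈ v 0, ∀ q ∈ v 1, ZFSet.pair q p ∈ v 2 → q ∈ v 0) := by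
    refine (Dfb.ball (R := fun _ v => ∀ q ∈ v 2, ZFSet.pair q (v 0) ∈ v 3 → q ∈ v 1) ktr_zfm
      (Tm.var 0) ?_).congr fun M k v hv => Iff.rfl
    exact (Dfb.ball (R := fun _ v => ZFSet.pair (v 0) (v 1) ∈ v 4 → v 0 ∈ v 2) ktr_zfm
      (Tm.var 2) ((Dfb.pairMem (Tm.var 0) (Tm.var 1) (Tm.var 4)).imp
        (Dfb.mem (Tm.var 0) (Tm.var 2)))).congr fun M k v hv => Iff.rfl
  have h2 : Dfb ZFm (fun _ v => ∀ q ∈ v 2, ZFSet.pair q (v 0) ∈ v 3 → ∃ r ∈ v 1,
      ZFSet.pair r q ∈ v 3) := by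
    refine (Dfb.ball (R := fun _ v => ZFSet.pair (v 0) (v 1) ∈ v 4 → ∃ r ∈ v 2,
      ZFSet.pair r (v 0) ∈ v 4) ktr_zfm (Tm.var 2) ?_).congr fun M k v hv => Iff.rfl
    refine (Dfb.pairMem (Tm.var 0) (Tm.var 1) (Tm.var 4)).imp ?_
    exact (Dfb.bex (R := fun _ v => ZFSet.pair (v 0) (v 1) ∈ v 5) ktr_zfm (Tm.var 2)
      (Dfb.pairMem (Tm.var 0) (Tm.var 1) (Tm.var 5))).congr fun M k v hv => Iff.rfl
  have h3 : Dfb ZFm (fun _ v => ∀ p ∈ v 1, (∀ q ∈ v 1, ZFSet.pair q p ∈ v 2 → ∃ r ∈ v 0,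
      ZFSet.pair r q ∈ v 2) → p ∈ v 0) :=
    (Dfb.ball ktr_zfm (Tm.var 1) (h2.imp (Dfb.mem (Tm.var 0) (Tm.var 1)))).congr
      fun M k v hv => Iff.rfl
  exact h1.and h3

theorem roS_eq (P L : V) : roS P L = (ZFSet.powerset P).sep fun O => rocnd O P L := rfl

theorem tm_sepro : Tm ZFm (fun _ v => (v 0).sep fun O => rocnd O (v 1) (v 2)) :=
  (Tm.sep (R := fun _ v => rocnd (v 0) (v 2) (v 3))
    (Dfb.at3 (P := fun _ x y z => rocnd x y z) dfb_rocnd (Tm.var 0) (Tm.var 2) (Tm.var 3))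
    (Tm.var 0)).congr fun _ _ _ _ => rfl

/-- the condition for the generated regular open set -/
theorem dfb_clcnd : Dfb ZFm (fun _ v => ∀ r ∈ v 1, ZFSet.pair r (v 0) ∈ v 2 → ∃ s ∈ v 1,
    ZFSet.pair s r ∈ v 2 ∧ ZFSet.pair s (v 3) ∈ v 2) := by
  refine (Dfb.ball (R := fun _ v => ZFSet.pair (v 0) (v 1) ∈ v 3 → ∃ s ∈ v 2,
    ZFSet.pair s (v 0) ∈ v 3 ∧ ZFSet.pair s (v 4) ∈ v 3) ktr_zfm (Tm.var 1) ?_).congr
    fun M k v hv => Iff.rfl
  refine (Dfb.pairMem (Tm.var 0) (Tm.var 1) (Tm.var 3)).imp ?_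
  exact (Dfb.bex (R := fun _ v => ZFSet.pair (v 0) (v 1) ∈ v 4 ∧ ZFSet.pair (v 0) (v 5) ∈ v 4)
    ktr_zfm (Tm.var 2) ((Dfb.pairMem (Tm.var 0) (Tm.var 1) (Tm.var 4)).and
      (Dfb.pairMem (Tm.var 0) (Tm.var 5) (Tm.var 4)))).congr fun M k v hv => Iff.rfl

/-- KRO. The regular open algebra is a definable function. -/
theorem kro (hKQ : T_KQ) : T_KRO := by
  refine ⟨?_, ?_, ?_⟩
  · exact Tm.at3 (F := fun _ x y z => x.sep fun O => rocnd O y z)
      (tm_sepro.mono fun M h => h.1) hKQ (Tm.var 0) (Tm.var 1)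
  · have h := (Tm.sep (f := fun _ v => v 0) dfb_clcnd (Tm.var 0)).mono
      (K' := KPw) fun M h => h.1
    exact h.congr fun _ _ _ _ => rfl
  · intro κ
    have key : ∀ x ∈ UU κ, ∀ y ∈ UU κ, (leU x y ↔ ZFSet.pair x y ∈ UL κ) := by
      intro x hx y hy
      unfold UL
      rw [ZFSet.mem_sep, ZFSet.pair_mem_prod, fst_pair, snd_pair]
      exact ⟨fun h => ⟨⟨hx, hy⟩, h⟩, fun h => h.2⟩
    constructor
    · ext O
      unfold roS
      rw [mem_RO, mem_RO]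
      refine and_congr_right fun hO => and_congr ?_ ?_
      · refine forall_congr' fun p => forall_congr' fun hp => forall_congr' fun q =>
          forall_congr' fun hq => ?_
        rw [key q hq p (hO hp)]
      · refine forall_congr' fun p => forall_congr' fun hp => imp_congr_left ?_
        refine forall_congr' fun q => forall_congr' fun hq => ?_
        rw [key q hq p hp]
        refine imp_congr_right fun _ => exists_congr fun r => and_congr_right fun hr => ?_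
        exact key r (hO hr) q hq
    · intro u hu
      ext q
      unfold clS cl
      rw [ZFSet.mem_sep, ZFSet.mem_sep]
      refine and_congr_right fun hq => forall_congr' fun r => forall_congr' fun hr => ?_
      rw [key r hr q hq]
      refine imp_congr_right fun _ => exists_congr fun s => and_congr_right fun hs => ?_
      rw [key s hs r hr, key s hs u hu]

end H33

end SF
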