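import Pool.Agent.H77.SF.KT2

/-!
# KXB: existence of preimages of algebras and morphisms
-/

open Ordinal Cardinal Order Set
open scoped ZFSet

namespace SF

namespace H33

theorem top_val {B : V} [IsCBA B] : (⊤ : El B).val = (⋃₀ B : ZFSet) := by
  ext z
  rw [ZFSet.mem_sUnion]
  constructor
  · intro h
    exact ⟨_, (⊤ : El B).mem, h⟩
  · rintro ⟨y, hy, hz⟩
    exact El.le_iff.1 (le_top : (⟨y, hy⟩ : El B) ≤ ⊤) hz

theorem mem_gr {B C : V} [IsCBA B] [IsCBA C] (h : Mor B C) (x y : V) :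
    ZFSet.pair x y ∈ h.gr ↔ ∃ x0 : El B, x0.val = x ∧ (h x0).val = y := by
  unfold Mor.gr
  rw [ZFSet.mem_range]
  constructor
  · rintro ⟨x0, h1⟩
    obtain ⟨e1, e2⟩ := ZFSet.pair_injective h1
    exact ⟨x0, e1, e2⟩
  · rintro ⟨x0, rfl, rfl⟩
    exact ⟨x0, rfl⟩

theorem app_gr {B C : V} [IsCBA B] [IsCBA C] (h : Mor B C) (x : El B) :
    app h.gr x.val = (h x).val := by
  refine app_eq ?_ ((mem_gr h _ _).2 ⟨x, rfl, rfl⟩)
  intro a b c hb hc
  obtain ⟨x1, rfl, rfl⟩ := (mem_gr h _ _).1 hb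
  obtain ⟨x2, e, rfl⟩ := (mem_gr h _ _).1 hc
  rw [El.ext e]

/-- KXB. Existence of preimages of algebras and morphisms. -/
theorem kxb (hKN : T_KN) (hKS : T_KS) (hKV : T_KV) (hUV : T_UV) : T_KXB := by
  intro κ' κ lam' lam j hj
  have hB0 : B0 ∈ V_ κ'.ord := (hUV _ (hKV κ' hj.inac')).2.2.2.2.2.1
  have hB0l : B0 ∈ V_ lam' := ZFSet.vonNeumann_subset_of_le hj.lt'.le hB0
  have hjB0 : app j B0 = B0 := hj.fix _ hB0
  constructor
  · intro A B' hB' g' hg' eB eg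
    let v : ℕ → V := fun n => match n with
      | 0 => B0
      | 1 => B'
      | _ + 2 => g'
    have hv : ∀ n, v n ∈ V_ lam' := fun n => by
      match n with
      | 0 => exact hB0l
      | 1 => exact hB'
      | _ + 2 => exact hg'
    have h1 := (hKN κ' κ lam' lam j hj (fun v => IsMorS (v 0) (v 1) (v 2)) hKS v hv).2 (by
      show IsMorS (app j B0) (app j B') (app j g')
      rw [hjB0, eB, eg]
      exact ⟨inferInstance, inferInstance, A.g, rfl⟩)
    obtain ⟨i1, i2, m, hm⟩ : IsMorS B0 B' g' := h1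
    have hd : Dfb KPw (fun _ v => ZFSet.pair (⋃₀ (v 0) : ZFSet) (⋃₀ (v 1) : ZFSet) ∈ v 2) :=
      (Dfb.pairMem (Tm.sUnion (Tm.var 0)) (Tm.sUnion (Tm.var 1)) (Tm.var 2)).mono
        fun _ h => h.1
    have h2 := (hKN κ' κ lam' lam j hj
      (fun v => ZFSet.pair (⋃₀ (v 0) : ZFSet) (⋃₀ (v 1) : ZFSet) ∈ v 2) hd v hv).2 (by
      show ZFSet.pair (⋃₀ (app j B0) : ZFSet) (⋃₀ (app j B') : ZFSet) ∈ app j g'
      rw [hjB0, eB, eg, ← top_val, ← top_val, mem_gr]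
      exact ⟨⊤, rfl, congrArg El.val A.unit⟩)
    have h3 : ZFSet.pair (⋃₀ B0 : ZFSet) (⋃₀ B' : ZFSet) ∈ g' := h2
    rw [← hm, ← top_val, ← top_val, mem_gr] at h3
    obtain ⟨x0, e1, e2⟩ := h3
    have e3 : x0 = ⊤ := El.ext e1
    subst e3
    exact ⟨{ B := B', g := m, unit := El.ext e2 }, rfl, hm⟩
  · intro A' C' A C h h0 hh0 k1 k2 k3 k4 e1 e2 e3 e4 e5
    let v : ℕ → V := fun n => match n with
      | 0 => B0
      | 1 => A'.B
      | 2 => A'.g.gr
      | 3 => C'.B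
      | 4 => C'.g.gr
      | _ + 5 => h0
    have hv : ∀ n, v n ∈ V_ lam' := fun n => by
      match n with
      | 0 => exact hB0l
      | 1 => exact k1
      | 2 => exact k2
      | 3 => exact k3
      | 4 => exact k4
      | _ + 5 => exact hh0
    have h1 := (hKN κ' κ lam' lam j hj (fun v => IsMorS (v 1) (v 3) (v 5))
      (hKS.at3 (P := fun _ x y z => IsMorS x y z) (Tm.var 1) (Tm.var 3) (Tm.var 5)) v hv).2 (by
      show IsMorS (app j A'.B) (app j C'.B) (app j h0)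
      rw [e1, e3, e5]
      exact ⟨inferInstance, inferInstance, h.toMor, rfl⟩)
    obtain ⟨i1, i2, m, hm⟩ : IsMorS A'.B C'.B h0 := h1
    have hd0 : Dfb ZFm (fun _ v => ∀ x ∈ v 0, app (v 5) (app (v 2) x) =
        app (v 4) x ∩ app (v 5) (⋃₀ (v 1) : ZFSet)) := by
      refine (Dfb.ball (R := fun _ v => app (v 6) (app (v 3) (v 0)) =
        app (v 5) (v 0) ∩ app (v 6) (⋃₀ (v 2) : ZFSet)) ktr_zfm (Tm.var 0) ?_).congr
        fun M k v hv => Iff.rfl
      exact Dfb.eq (Tm.app (Tm.var 6) (Tm.app (Tm.var 3) (Tm.var 0)))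
        (Tm.inter (Tm.app (Tm.var 5) (Tm.var 0)) (Tm.app (Tm.var 6) (Tm.sUnion (Tm.var 2))))
    have h2 := (hKN κ' κ lam' lam j hj (fun v => ∀ x ∈ v 0, app (v 5) (app (v 2) x) =
        app (v 4) x ∩ app (v 5) (⋃₀ (v 1) : ZFSet)) (hd0.mono fun _ h => h.1) v hv).2 (by
      show ∀ x ∈ app j B0, app (app j h0) (app (app j A'.g.gr) x) =
        app (app j C'.g.gr) x ∩ app (app j h0) (⋃₀ (app j A'.B) : ZFSet)
      rw [hjB0, e1, e2, e4, e5]
      intro x hx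
      have g1 := app_gr A.g ⟨x, hx⟩
      have g2 := app_gr C.g ⟨x, hx⟩
      rw [g1, g2, ← top_val, app_gr, app_gr, ← El.inf_val]
      exact congrArg El.val (h.base ⟨x, hx⟩))
    have h3 : ∀ x ∈ B0, app h0 (app A'.g.gr x) = app C'.g.gr x ∩ app h0 (⋃₀ A'.B : ZFSet) := h2
    refine ⟨{ toMor := m, base := fun x => ?_ }, hm⟩
    have h4 := h3 x.val x.mem
    rw [← hm, app_gr, app_gr, ← top_val, app_gr, app_gr, ← El.inf_val] at h4
    exact El.ext h4

end H33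

end SF
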