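import Pool.Agent.H84.SF.Loc
import Pool.Agent.H77.SM.RAM

/-!
# sfc board, RAMS: solutions near `G = 0` have bounded ramification and bounded order
helper33
-/

set_option autoImplicit false

namespace Pool.Agent.H33.SF

open MvPolynomial SC
open Pool.Agent.H27.LV (ge deg poleOrder canDeg)
open Pool.Agent.H92.OD (HS cf sg uu Lat geO IsO DF DD cf_add cf_zero cf_sub cf_sg cf_DF hs_ext
  geO_zero algebraMap_HS sg_mul_sg)
open Pool.Agent.H84.SM (y1 y2 Near)
open Pool.Agent.H84.SF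

/-- multiplication of the coefficients by a character which is trivial on `(1/N) ℤ` -/
theorem twist (k : Type) [Field k] [IsAlgClosed k] [CharZero k] (N : ℕ) (s : ℚ) (hN : 1 ≤ N)
    (hs : ¬∃ m : ℤ, s * N = m) :
    ∃ (σ : HS k →ₐ[k] HS k) (c : ℚ → k), (∀ y r, cf (σ y) r = c r * cf y r) ∧
      (∀ r : ℚ, (∃ m : ℤ, r * N = m) → c r = 1) ∧ c s ≠ 1 ∧ σ (uu k) = uu k ∧
      (∀ y, σ (y1 y) = y1 (σ y)) ∧ ∀ y, σ (y2 y) = y2 (σ y) := by
  obtain ⟨σ, c, h1, h2, h3, h4⟩ := Pool.Agent.H6.SM.pf_CHJQ k N s hN hs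
  have hσsg : ∀ z : ℤ, σ (sg (z : ℚ) (1 : k)) = sg (z : ℚ) 1 := by
    intro z
    refine hs_ext fun r => ?_
    rw [h1, cf_sg]
    split_ifs with h
    · rw [h, h3 (z : ℚ) ⟨z * N, by push_cast; ring⟩, one_mul]
    · rw [mul_zero]
  have hσuu : σ (uu k) = uu k := by
    have h := hσsg 1
    rw [Int.cast_one] at h
    exact h
  have hσC : ∀ t : k, σ (algebraMap k (HS k) t) = algebraMap k (HS k) t := by
    intro t
    rw [algebraMap_HS]
    refine hs_ext fun r => ?_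
    rw [h1, cf_sg]
    split_ifs with h
    · rw [h, h3 0 ⟨0, by simp⟩, one_mul]
    · rw [mul_zero]
  have hσDF : ∀ y, σ (DF y) = DF (σ y) := by
    intro y
    refine hs_ext fun r => ?_
    rw [h1, cf_DF, cf_DF, h1, mul_smul_comm]
  obtain ⟨σ', hσ'⟩ : ∃ σ' : HS k →ₐ[k] HS k, ∀ y, σ' y = σ y :=
    ⟨{ σ with commutes' := hσC }, fun y => rfl⟩
  refine ⟨σ', c, fun y r => by rw [hσ', h1], h3, h4, by rw [hσ', hσuu], fun y => ?_, fun y => ?_⟩
  · rw [hσ', hσ']
    unfold y1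
    have h := hσsg (-1)
    push_cast at h
    rw [map_mul, h, hσDF]
  · rw [hσ', hσ']
    unfold y2
    have h := hσsg (-2)
    push_cast at h
    rw [map_mul, h, map_sub, hσDF, hσDF]

theorem twist_pt {k O : Type} [Field k] [CharZero k] [CommRing O] [Algebra k O] (X G A : O)
    (b : Fin 4 → O) (a : ℕ) (x : O →ₐ[k] HS k) (σ : HS k →ₐ[k] HS k) (c : ℚ → k)
    (h1 : ∀ y r, cf (σ y) r = c r * cf y r) (huu : σ (uu k) = uu k)
    (hy1 : ∀ y, σ (y1 y) = y1 (σ y)) (hy2 : ∀ y, σ (y2 y) = y2 (σ y))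
    (hx : Pnt X G x) (hn : Near a (x G)) (hS : SolO A b G x) :
    Pnt X G (σ.comp x) ∧ Near a ((σ.comp x) G) ∧ SolO A b G (σ.comp x) := by
  have hge : ∀ (r : ℚ) (y : HS k), geO r y → geO r (σ y) := by
    intro r y hr t ht
    rw [h1, hr t ht, mul_zero]
  refine ⟨⟨?_, ?_, fun h => hge 0 _ (hx.int h)⟩, ?_, ?_⟩
  · rw [AlgHom.comp_apply, hx.eqX, huu]
  · obtain ⟨r, hr, hg⟩ := hx.pos
    exact ⟨r, hr, hge r _ hg⟩
  · obtain ⟨g1, r, g2, g3⟩ := hn
    exact ⟨hge 1 _ g1, r, g2, hge r _ g3⟩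
  · have h := congrArg σ hS
    rw [map_add, map_mul, map_zero, hy2, map_sum] at h
    have e : ∀ j : Fin 4, σ (x (b j) * y1 (x G) ^ (j : ℕ)) =
        σ (x (b j)) * y1 (σ (x G)) ^ (j : ℕ) := by
      intro j
      rw [map_mul, map_pow, hy1]
    rw [Finset.sum_congr rfl fun j _ => e j] at h
    exact h

theorem sol_zero {k O : Type} [Field k] [CharZero k] [CommRing O] [Algebra k O] (A G : O)
    (b : Fin 4 → O) (c : O →ₐ[k] HS k) (hG : c G = 0) (hb : c (b 0) = 0) : SolO A b G c := by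
  have hD : DF (0 : HS k) = 0 := by
    refine hs_ext fun r => ?_
    rw [cf_DF, cf_zero, smul_zero]
  have e1 : y1 (0 : HS k) = 0 := by
    unfold y1
    rw [hD, mul_zero]
  have e2 : y2 (0 : HS k) = 0 := by
    unfold y2
    rw [hD, hD, sub_zero, mul_zero]
  unfold SolO
  rw [hG, e1, e2, mul_zero, zero_add]
  refine Finset.sum_eq_zero fun j _ => ?_
  by_cases hj : j = 0
  · rw [hj, hb, zero_mul]
  · rw [zero_pow (fun h => hj (Fin.ext h)), mul_zero]

theorem near_zero {k : Type} [Field k] [CharZero k] (a : ℕ) : Near a (0 : HS k) :=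
  ⟨geO_zero 1, (a : ℚ) + 1, by linarith, geO_zero _⟩

theorem pf_RAMS (hEXD : T_EXD) (hINDS : T_INDS) : T_RAMS := by
  intro k O _ _ _ _ _ ε X G dX dG hF A b a c hc hcG hcL hcb hcA
  obtain ⟨χ, hχ0, hχa, hχ⟩ := hINDS k O ε X G dX dG hF A b a c hc hcG hcL hcb hcA
  obtain ⟨N, hN1, hNa, hN⟩ := Pool.Agent.H77.SM.roots_bd χ hχ0 a hχa
  refine ⟨N, hN1, hNa, fun x hx hn _ hS => ?_⟩
  have hcS : SolO A b G c := sol_zero A G b c hcG hcb
  have hcN : Near a (c G) := by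
    rw [hcG]
    exact near_zero a
  have hLU : Lat N (x G) := by
    by_contra hL
    have hL' : ∃ r : ℚ, cf (x G) r ≠ 0 ∧ ¬∃ m : ℤ, r * N = m := by
      by_contra h
      push Not at h
      apply hL
      intro r hr
      obtain ⟨m, hm⟩ := h r hr
      exact ⟨m, hm⟩
    obtain ⟨T, hT⟩ : ∃ T : Set ℚ, T = {r | cf (x G) r ≠ 0 ∧ ¬∃ m : ℤ, r * N = m} := ⟨_, rfl⟩
    have hWF : T.IsWF := by
      refine (HahnSeries.isPWO_support (x G : HahnSeries ℚ k)).isWF.mono ?_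
      intro r hr
      rw [hT] at hr
      exact hr.1
    have hne : T.Nonempty := by
      obtain ⟨r, hr⟩ := hL'
      exact ⟨r, by rw [hT]; exact hr⟩
    obtain ⟨s, hs⟩ : ∃ s, s = hWF.min hne := ⟨_, rfl⟩
    have hsT : s ∈ T := by rw [hs]; exact hWF.min_mem hne
    have hmin : ∀ r < s, cf (x G) r ≠ 0 → ∃ m : ℤ, r * N = m := by
      intro r hr hc
      by_contra h
      refine hWF.not_lt_min hne (a := r) ?_ (by rw [← hs]; exact hr)
      rw [hT]
      exact ⟨hc, h⟩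
    rw [hT] at hsT
    obtain ⟨hs0, hsN⟩ := hsT
    obtain ⟨σ, d, h1, h3, h4, huu, hy1, hy2⟩ := twist k N s hN1 hsN
    obtain ⟨p1, p2, p3⟩ := twist_pt X G A b a x σ d h1 huu hy1 hy2 hx hn hS
    have hO : IsO ((σ.comp x) G - x G) s := by
      rw [AlgHom.comp_apply]
      refine ⟨?_, fun t ht => ?_⟩
      · rw [cf_sub, h1]
        intro h
        have h5 : (d s - 1) * cf (x G) s = 0 := by rw [← h]; ring
        rcases mul_eq_zero.1 h5 with h6 | h6
        · exact h4 (sub_eq_zero.1 h6)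
        · exact hs0 h6
      · rw [cf_sub, h1]
        by_cases h : cf (x G) t = 0
        · rw [h, mul_zero, sub_zero]
        · rw [h3 t (hmin t ht h), one_mul, sub_self]
    exact hsN (hN s (hχ x (σ.comp x) hx p1 hn p2 hS p3 s hO)).1
  refine ⟨fun h s hs0 => ?_, fun μ hμ => ?_⟩
  · by_contra hsN
    obtain ⟨σ, d, h1, h3, h4, huu, hy1, hy2⟩ := twist k N s hN1 hsN
    obtain ⟨p1, p2, p3⟩ := twist_pt X G A b a x σ d h1 huu hy1 hy2 hx hn hS
    have hU : (σ.comp x) G - x G = 0 := by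
      rw [AlgHom.comp_apply, sub_eq_zero]
      refine hs_ext fun r => ?_
      rw [h1]
      by_cases h0 : cf (x G) r = 0
      · rw [h0, mul_zero]
      · rw [h3 r (hLU r h0), one_mul]
    obtain ⟨R, -, hR⟩ := hEXD k O ε X G dX dG hF x (σ.comp x) hx p1 h
    rw [hU, zero_mul, add_zero, zero_pow (two_ne_zero), zero_mul, add_zero] at hR
    have h5 : cf (σ (x h)) s = cf (x h) s := by
      rw [AlgHom.comp_apply] at hR
      rw [hR]
    rw [h1] at h5
    have h6 : (d s - 1) * cf (x h) s = 0 := by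
      rw [sub_mul, h5, one_mul, sub_self]
    rcases mul_eq_zero.1 h6 with h7 | h7
    · exact h4 (sub_eq_zero.1 h7)
    · exact hs0 h7
  · refine (hN μ (hχ c x hc hx hcN hn hcS hS μ ?_)).2
    rw [hcG, sub_zero]
    exact hμ

end Pool.Agent.H33.SF
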