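import Pool.Agent.H45.SF.UT

/-!
# TU: preservation of tuples
-/

open Ordinal Cardinal Order Set
open scoped ZFSet

namespace SF

namespace H33

/-- if a pair is preserved then its components are preserved -/
theorem tu_step (hAP : T_AP) (B C : V) [IsCBA B] [IsCBA C] (N' N : V) (b : El B) (e : El C)
    (τ : V → V → El B) (τ' : V → V → El C) (k : Mor B C) (hN : NP N' N) (h : BMap N' N b τ)
    (h' : BMap N' N e τ') (he : e ≤ k b) (a t : V) (ha : a ∈ N') (ht : t ∈ N')
    (H : ∀ z, e ⊓ k (τ (ZFSet.pair a t) z) ≤ τ' (ZFSet.pair a t) z) :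
    (∀ z, e ⊓ k (τ a z) ≤ τ' a z) ∧ ∀ z, e ⊓ k (τ t z) ≤ τ' t z := by
  by_cases hb : b = ⊥
  · have hk : k (⊥ : El B) = ⊥ := by
      have := k.sup ∅
      simpa using this
    have he0 : e = ⊥ := by
      rw [hb, hk] at he
      exact le_bot_iff.1 he
    subst he0
    simp
  by_cases he0 : e = ⊥
  · subst he0
    simp
  obtain ⟨A1, -, -, -, -, -⟩ := hAP B N' N b τ hN h hb
  obtain ⟨A2, -, -, -, -, -⟩ := hAP C N' N e τ' hN h' he0
  obtain ⟨-, P1, -⟩ := A1 a ha t ht
  obtain ⟨-, -, P2⟩ := A2 a ha t ht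
  have mono : ∀ x y, x ≤ y → k x ≤ k y := by
    intro x y hxy
    have h1 := k.inf x y
    rw [inf_eq_left.2 hxy] at h1
    rw [h1]
    exact inf_le_right
  have main : ∀ y z, τ' (ZFSet.pair a t) (ZFSet.pair y z) ≤ τ' a y ⊓ τ' t z := by
    intro y z
    by_cases h0 : τ' (ZFSet.pair a t) (ZFSet.pair y z) = ⊥
    · rw [h0]; exact bot_le
    · obtain ⟨y1, y2, e1, e2⟩ := P2 _ h0
      obtain ⟨rfl, rfl⟩ := ZFSet.pair_injective e1
      exact e2
  have hs : ∀ (f : V → El B), k (⨆ y, f y) = ⨆ y, k (f y) := by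
    intro f
    have h1 := k.sup (Set.range f)
    rw [← Set.range_comp] at h1
    exact h1
  constructor
  · intro z
    have h1 : τ a z = ⨆ y, τ a z ⊓ τ t y := by
      rw [← inf_iSup_eq, h.tot t ht]
      exact (inf_eq_left.2 ((le_iSup (fun y => τ a y) z).trans (h.tot a ha).le)).symm
    rw [h1, hs, inf_iSup_eq]
    refine iSup_le fun y => ?_
    exact (inf_le_inf_left _ (mono _ _ (P1 z y))).trans
      ((H _).trans ((main z y).trans inf_le_left))
  · intro z
    have h1 : τ t z = ⨆ y, τ a y ⊓ τ t z := by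
      rw [← iSup_inf_eq, h.tot a ha]
      exact (inf_eq_right.2 ((le_iSup (fun y => τ t y) z).trans (h.tot t ht).le)).symm
    rw [h1, hs, inf_iSup_eq]
    refine iSup_le fun y => ?_
    exact (inf_le_inf_left _ (mono _ _ (P1 y z))).trans
      ((H _).trans ((main y z).trans inf_le_right))

/-- a full set is closed under unordered pairs -/
theorem tu_upair {N : V} (h : Full (fun _ => True) N) {a b : V} (ha : a ∈ N) (hb : b ∈ N) :
    ({a, b} : V) ∈ N := by
  obtain ⟨ht, hw, γ, -, hz, hf⟩ := h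
  have h0 : (∅ : V) ∈ N := ht.mem_trans (mem_om.2 ⟨0, nS_zero.symm⟩) hw
  have h1 : nS 2 ∈ N := ht.mem_trans (mem_om.2 ⟨2, rfl⟩) hw
  have h11 : nS 1 ∈ N := ht.mem_trans (mem_om.2 ⟨1, rfl⟩) hw
  have e1 : nS 1 = {∅} := by
    rw [show (1 : ℕ) = 0 + 1 from rfl, nS_succ, nS_zero]
    ext z; simp
  have e2 : nS 2 = {∅, {∅}} := by
    rw [show (2 : ℕ) = 1 + 1 from rfl, nS_succ, e1]
    ext z; simp [or_comm]
  rw [e1] at h11
  rw [e2] at h1
  have sub : ∀ x ∈ N, x ∈ LN N γ := by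
    intro x hx
    unfold LN Lh
    exact ZFSet.mem_union.2 (Or.inl (ZFSet.mem_insert_iff.2 (Or.inr hx)))
  have ne : (∅ : V) ≠ {∅} := by
    intro h
    have : (∅ : V) ∈ ({∅} : V) := ZFSet.mem_singleton.2 rfl
    rw [← h] at this
    exact ZFSet.notMem_empty _ this
  have key := hf {∅, {∅}} h1 {ZFSet.pair ∅ a, ZFSet.pair {∅} b}
    (hz.toZFm.pair _ _ (hz.toZFm.mpair (sub _ h0) (sub _ ha))
      (hz.toZFm.mpair (sub _ h11) (sub _ hb))) ?_
  · have e : (N.sep fun y => ∃ u ∈ ({∅, {∅}} : V), ZFSet.pair u y ∈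
        ({ZFSet.pair ∅ a, ZFSet.pair {∅} b} : V)) = {a, b} := by
      ext z
      simp only [ZFSet.mem_sep, ZFSet.mem_pair, ZFSet.pair_inj]
      constructor
      · rintro ⟨-, u, -, ⟨-, rfl⟩ | ⟨-, rfl⟩⟩
        · exact Or.inl rfl
        · exact Or.inr rfl
      · rintro (rfl | rfl)
        · exact ⟨ha, ∅, Or.inl rfl, Or.inl ⟨rfl, rfl⟩⟩
        · exact ⟨hb, {∅}, Or.inr rfl, Or.inr ⟨rfl, rfl⟩⟩
    rwa [e] at key
  · constructor
    · intro z hz
      rcases ZFSet.mem_pair.1 hz with rfl | rfl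
      · exact ZFSet.pair_mem_prod.2 ⟨ZFSet.mem_pair.2 (Or.inl rfl), ha⟩
      · exact ZFSet.pair_mem_prod.2 ⟨ZFSet.mem_pair.2 (Or.inr rfl), hb⟩
    · intro z hz
      rcases ZFSet.mem_pair.1 hz with rfl | rfl
      · refine ⟨a, ZFSet.mem_pair.2 (Or.inl rfl), fun y hy => ?_⟩
        rcases ZFSet.mem_pair.1 hy with h | h
        · exact (ZFSet.pair_injective h).2
        · exact absurd (ZFSet.pair_injective h).1 ne
      · refine ⟨b, ZFSet.mem_pair.2 (Or.inr rfl), fun y hy => ?_⟩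
        rcases ZFSet.mem_pair.1 hy with h | h
        · exact absurd (ZFSet.pair_injective h).1.symm ne
        · exact (ZFSet.pair_injective h).2

/-- a full set is closed under pairs -/
theorem tu_pair {N : V} (h : Full (fun _ => True) N) {a b : V} (ha : a ∈ N) (hb : b ∈ N) :
    ZFSet.pair a b ∈ N := by
  unfold ZFSet.pair
  have h1 : ({a} : V) ∈ N := by
    have := tu_upair h ha ha
    rwa [ZFSet.pair_eq_singleton] at this
  exact tu_upair h h1 (tu_upair h ha hb)

/-- tuples are elements -/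
theorem tu_mem {N : V} (h : Full (fun _ => True) N) (l : List V) (hl : ∀ a ∈ l, a ∈ N) :
    tup l ∈ N := by
  induction l with
  | nil => exact h.1.mem_trans (mem_om.2 ⟨0, nS_zero.symm⟩) h.2.1
  | cons a l ih =>
    exact tu_pair h (hl a List.mem_cons_self)
      (ih fun x hx => hl x (List.mem_cons_of_mem _ hx))

/-- TU. Preservation of tuples. -/
theorem tu (hAP : T_AP) : T_TU := by
  intro B C _ _ N' N b e τ τ' k hN h h' he l
  induction l with
  | nil =>
    intro _
    exact ⟨tu_mem hN.full [] (by simp), fun _ a ha => by simp at ha⟩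
  | cons a l ih =>
    intro hl
    have hl2 : ∀ x ∈ l, x ∈ N' := fun x hx => hl x (List.mem_cons_of_mem _ hx)
    obtain ⟨i1, i2⟩ := ih hl2
    refine ⟨tu_pair hN.full (hl a List.mem_cons_self) i1, fun H x hx z => ?_⟩
    obtain ⟨s1, s2⟩ := tu_step hAP B C N' N b e τ τ' k hN h h' he a (tup l)
      (hl a List.mem_cons_self) i1 H
    rcases List.mem_cons.1 hx with rfl | hx
    · exact s1 z
    · exact i2 s2 x hx z

end H33

end SF
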