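import Pool.Agent.H45.SF.UT

/-!
# UKA: elements of the countable model which know the parameters
-/

open Ordinal Cardinal Order Set
open scoped ZFSet

namespace SF

namespace H33

theorem tm_jj {f g : (V → Prop) → (ℕ → V) → V} (hf : Tm ZFm f) (hg : Tm ZFm g) :
    Tm ZFm (fun M v => jj (f M v) (g M v)) :=
  Tm.fst (Tm.snd (Tm.snd (Tm.app hf hg)))

/-- the first two facts -/
def F12 (U L R CL PM : V) : Prop :=
  (∀ q ∈ L, ∃ a ∈ U, ∃ c ∈ U, q = ZFSet.pair a c) ∧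
  ∀ u ∈ U, u = ZFSet.pair (fst u) (snd u) ∧ snd u ∈ fst (fst u) ∧ app CL u ∈ R ∧
    app CL u ≠ ∅ ∧ ZFSet.pair (snd u) (app CL u) ∈ jj PM u

/-- the third fact -/
def F3 (M : V → Prop) (L R CL HW PM : V) : Prop :=
  ∀ a, M a → ∀ c, M c → ZFSet.pair a c ∈ L → (app CL a ⊆ app CL c ∧
    ZFSet.pair (snd c) (snd a) ∈ fst (app HW (ZFSet.pair a c)) ∧
    ∀ x, M x → ∀ y, M y → ∀ z, M z → ZFSet.pair x y ∈ fst (app HW (ZFSet.pair a c)) →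
      ZFSet.pair y z ∈ jj PM a →
      x ∈ fst (fst c) ∧ ∃ z' ∈ R, ZFSet.pair x z' ∈ jj PM c ∧ z ⊆ z')

/-- the fourth fact -/
def F4 (U L R CL : V) : Prop :=
  ∀ c ∈ U, ∀ g ∈ R, ∀ x ∈ R, x ≠ ∅ → ∃ z ∈ R, z ≠ ∅ ∧ z ⊆ x ∧ (z ∩ (app CL c ∩ g) = ∅ ∨
    ∃ a ∈ U, ZFSet.pair a c ∈ L ∧ z = app CL a ∧ z ⊆ g)

theorem dfb_F12 : Dfb ZFm (fun _ v => F12 (v 0) (v 1) (v 2) (v 3) (v 5)) := by
  have h1 : Dfb ZFm (fun _ v => ∀ q ∈ v 1, ∃ a ∈ v 0, ∃ c ∈ v 0, q = ZFSet.pair a c) := by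
    refine (Dfb.ball (R := fun _ v => ∃ a ∈ v 1, ∃ c ∈ v 1, v 0 = ZFSet.pair a c) ktr_zfm
      (Tm.var 1) ?_).congr fun M k v hv => Iff.rfl
    refine (Dfb.bex (R := fun _ v => ∃ c ∈ v 2, v 1 = ZFSet.pair (v 0) c) ktr_zfm
      (Tm.var 1) ?_).congr fun M k v hv => Iff.rfl
    exact (Dfb.bex (R := fun _ v => v 2 = ZFSet.pair (v 1) (v 0)) ktr_zfm
      (Tm.var 2) (Dfb.isPair (Tm.var 2) (Tm.var 1) (Tm.var 0))).congr fun M k v hv => Iff.rfl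
  have h2 : Dfb ZFm (fun _ v => ∀ u ∈ v 0, u = ZFSet.pair (fst u) (snd u) ∧
      snd u ∈ fst (fst u) ∧ app (v 3) u ∈ v 2 ∧ app (v 3) u ≠ ∅ ∧
      ZFSet.pair (snd u) (app (v 3) u) ∈ jj (v 5) u) := by
    refine (Dfb.ball (R := fun _ v => v 0 = ZFSet.pair (fst (v 0)) (snd (v 0)) ∧
      snd (v 0) ∈ fst (fst (v 0)) ∧ app (v 4) (v 0) ∈ v 3 ∧ ¬ app (v 4) (v 0) = ∅ ∧
      ZFSet.pair (snd (v 0)) (app (v 4) (v 0)) ∈ jj (v 6) (v 0)) ktr_zfm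
      (Tm.var 0) ?_).congr fun M k v hv => Iff.rfl
    have t0 : Tm ZFm (fun _ v => fst (v 0)) := Tm.fst (Tm.var 0)
    have t1 : Tm ZFm (fun _ v => snd (v 0)) := Tm.snd (Tm.var 0)
    have t2 : Tm ZFm (fun _ v => app (v 4) (v 0)) := Tm.app (Tm.var 4) (Tm.var 0)
    exact (Dfb.isPair (Tm.var 0) t0 t1).and ((Dfb.mem t1 (Tm.fst t0)).and
      ((Dfb.mem t2 (Tm.var 3)).and ((Dfb.eq t2 Tm.empty).not.and
        (Dfb.pairMem t1 t2 (tm_jj (Tm.var 6) (Tm.var 0))))))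
  exact h1.and h2

theorem dfb_F3 : Dfb ZFm (fun M v => F3 M (v 1) (v 2) (v 3) (v 4) (v 5)) := by
  have h1 : Dfb ZFm (fun M v => (ZFSet.pair (v 2) (v 1) ∈ fst (app (v 9)
      (ZFSet.pair (v 4) (v 3))) → ZFSet.pair (v 1) (v 0) ∈ jj (v 10) (v 4) →
      v 2 ∈ fst (fst (v 3)) ∧ ∃ z' ∈ v 7, ZFSet.pair (v 2) z' ∈ jj (v 10) (v 3) ∧ v 0 ⊆ z')) := by
    refine (Dfb.pairMem (Tm.var 2) (Tm.var 1)
      (Tm.fst (Tm.app (Tm.var 9) (Tm.pair (Tm.var 4) (Tm.var 3))))).imp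
      ((Dfb.pairMem (Tm.var 1) (Tm.var 0) (tm_jj (Tm.var 10) (Tm.var 4))).imp
      ((Dfb.mem (Tm.var 2) (Tm.fst (Tm.fst (Tm.var 3)))).and ?_))
    refine (Dfb.bex (R := fun _ v => ZFSet.pair (v 3) (v 0) ∈ jj (v 11) (v 4) ∧ v 1 ⊆ v 0)
      ktr_zfm (Tm.var 7) ?_).congr fun M k v hv => Iff.rfl
    exact (Dfb.pairMem (Tm.var 3) (Tm.var 0) (tm_jj (Tm.var 11) (Tm.var 4))).and
      (Dfb.subset (Tm.var 1) (Tm.var 0))
  have h2 : Dfb ZFm (fun M v => ZFSet.pair (v 1) (v 0) ∈ v 3 →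
      (app (v 5) (v 1) ⊆ app (v 5) (v 0) ∧
      ZFSet.pair (snd (v 0)) (snd (v 1)) ∈ fst (app (v 6) (ZFSet.pair (v 1) (v 0))) ∧
      ∀ x, M x → ∀ y, M y → ∀ z, M z → ZFSet.pair x y ∈ fst (app (v 6)
      (ZFSet.pair (v 1) (v 0))) → ZFSet.pair y z ∈ jj (v 7) (v 1) →
      x ∈ fst (fst (v 0)) ∧ ∃ z' ∈ v 4, ZFSet.pair x z' ∈ jj (v 7) (v 0) ∧ z ⊆ z')) := by
    refine (Dfb.pairMem (Tm.var 1) (Tm.var 0) (Tm.var 3)).imp
      ((Dfb.subset (Tm.app (Tm.var 5) (Tm.var 1)) (Tm.app (Tm.var 5) (Tm.var 0))).and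
      ((Dfb.pairMem (Tm.snd (Tm.var 0)) (Tm.snd (Tm.var 1))
        (Tm.fst (Tm.app (Tm.var 6) (Tm.pair (Tm.var 1) (Tm.var 0))))).and ?_))
    exact h1.all.all.all.congr fun M k v hv => Iff.rfl
  exact h2.all.all.congr fun M k v hv => Iff.rfl

theorem dfb_F4 : Dfb ZFm (fun _ v => F4 (v 0) (v 1) (v 2) (v 3)) := by
  have h1 : Dfb ZFm (fun _ v => ∃ a ∈ v 4, ZFSet.pair a (v 3) ∈ v 5 ∧
      v 0 = app (v 7) a ∧ v 0 ⊆ v 2) := by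
    refine (Dfb.bex (R := fun _ v => ZFSet.pair (v 0) (v 4) ∈ v 6 ∧ v 1 = app (v 8) (v 0) ∧
      v 1 ⊆ v 3) ktr_zfm (Tm.var 4) ?_).congr fun M k v hv => Iff.rfl
    exact (Dfb.pairMem (Tm.var 0) (Tm.var 4) (Tm.var 6)).and
      ((Dfb.eq (Tm.var 1) (Tm.app (Tm.var 8) (Tm.var 0))).and
        (Dfb.subset (Tm.var 1) (Tm.var 3)))
  have h2 : Dfb ZFm (fun _ v => ¬ (v 0 = ∅) → ∃ z ∈ v 5, ¬ (z = ∅) ∧ z ⊆ v 0 ∧
      (z ∩ (app (v 6) (v 2) ∩ v 1) = ∅ ∨ ∃ a ∈ v 3, ZFSet.pair a (v 2) ∈ v 4 ∧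
        z = app (v 6) a ∧ z ⊆ v 1)) := by
    refine (Dfb.eq (Tm.var 0) Tm.empty).not.imp ?_
    refine (Dfb.bex (R := fun _ v => ¬ (v 0 = ∅) ∧ v 0 ⊆ v 1 ∧
      (v 0 ∩ (app (v 7) (v 3) ∩ v 2) = ∅ ∨ ∃ a ∈ v 4, ZFSet.pair a (v 3) ∈ v 5 ∧
        v 0 = app (v 7) a ∧ v 0 ⊆ v 2)) ktr_zfm (Tm.var 5) ?_).congr fun M k v hv => Iff.rfl
    exact (Dfb.eq (Tm.var 0) Tm.empty).not.and ((Dfb.subset (Tm.var 0) (Tm.var 1)).and
      ((Dfb.eq (Tm.inter (Tm.var 0) (Tm.inter (Tm.app (Tm.var 7) (Tm.var 3)) (Tm.var 2)))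
        Tm.empty).or h1))
  have h3 := Dfb.ball ktr_zfm (Tm.var 4) h2
  have h4 := Dfb.ball ktr_zfm (Tm.var 3) h3
  have h5 := Dfb.ball ktr_zfm (Tm.var 0) h4
  exact h5.congr fun M k v hv => Iff.rfl

theorem code_mem {κ : Ordinal.{0}} {c : Cd} (h : c.code ∈ V_ κ) : c.v.code ∈ V_ κ := by
  have ht := ZFSet.isTransitive_vonNeumann κ
  unfold Cd.code ZFSet.pair at h
  have h1 := ht.mem_trans (show ({c.v.code} : V) ∈ _ from ZFSet.mem_pair.2 (Or.inl rfl)) h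
  exact ht.mem_trans (ZFSet.mem_singleton.2 rfl) h1

/-- the facts for the real sets -/
theorem real_facts (hUA : T_UA) (hUC : T_UC) (hUP : T_UP) {κ : Ordinal.{0}} {Z : BA}
    {i : ∀ v : Obj, BMor v.A Z} (hκ : Inac κ) (hC : CU κ Z i) (M : V → Prop) :
    F12 (UU κ) (UL κ) Z.B (UCl κ) (UM κ i) ∧
    F3 M (UL κ) Z.B (UCl κ) (UH κ) (UM κ i) ∧
    F4 (UU κ) (UL κ) Z.B (UCl κ) := by
  obtain ⟨A1, A2, A3, A4, A5, A6, A7, A8⟩ := hUA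
  obtain ⟨C1, C2, C3, C4, C5, C6, C7, C8, C9⟩ := hUC κ Z i hκ hC
  obtain ⟨P1, P2, P3, P4⟩ := hUP
  obtain ⟨P5, P6⟩ := P4 κ
  have hfst : ∀ c : Cd, fst c.code = c.v.code := fun c => fst_pair _ _
  have hsnd : ∀ c : Cd, snd c.code = c.x.val := fun c => snd_pair _ _
  have hff : ∀ c : Cd, fst (fst c.code) = c.v.A.B := fun c => by
    rw [hfst]; exact fst_pair _ _
  have hcl : ∀ c : Cd, c.code ∈ V_ κ → app (UCl κ) c.code = (i c.v c.x).val := by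
    intro c hc
    unfold UCl
    rw [app_resS ((P6 _).2 ⟨c, rfl, hc⟩), hC.val c hc]
  have hne : ∀ c : Cd, c.code ∈ V_ κ → i c.v c.x ≠ ⊥ := fun c hc h =>
    c.ne (C3 c.v (code_mem hc) c.x h)
  have hnv : ∀ x : El Z.B, x ≠ ⊥ → x.val ≠ ∅ := by
    intro x hx h
    apply hx
    apply El.ext
    rw [h, El.bot_val]
  have hjj : ∀ c : Cd, c.code ∈ V_ κ → jj (UM κ i) c.code = (i c.v).toMor.gr := by
    intro c hc
    have h1 : ∃ z, PMr i c.code z := ⟨_, c, rfl, rfl⟩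
    have h2 : app (UM κ i) c.code = pmV i c.code := by
      unfold UM
      exact app_resS ((P6 _).2 ⟨c, rfl, hc⟩)
    have h3 : pmV i c.code = prm (i c.v).toMor := by
      unfold pmV
      rw [dif_pos h1]
      obtain ⟨c', e1, e2⟩ := h1.choose_spec
      rw [e2, A2 c c' e1]
    unfold jj
    rw [h2, h3]
    unfold prm
    rw [snd_pair, snd_pair, fst_pair]
  have hgr : ∀ {B C : V} [IsCBA B] [IsCBA C] (h : Mor B C) (x y : V),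
      ZFSet.pair x y ∈ h.gr ↔ ∃ x0 : El B, x0.val = x ∧ (h x0).val = y := by
    intro B C _ _ h x y
    unfold Mor.gr
    rw [ZFSet.mem_range]
    constructor
    · rintro ⟨x0, h1⟩
      obtain ⟨e1, e2⟩ := ZFSet.pair_injective h1
      exact ⟨x0, e1, e2⟩
    · rintro ⟨x0, rfl, rfl⟩
      exact ⟨x0, rfl⟩
  have hL : ∀ a c, ZFSet.pair a c ∈ UL κ ↔ a ∈ UU κ ∧ c ∈ UU κ ∧ leU a c := by
    intro a c
    unfold UL
    rw [ZFSet.mem_sep, ZFSet.pair_mem_prod, fst_pair, snd_pair]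
    tauto
  refine ⟨⟨?_, ?_⟩, ?_, ?_⟩
  · intro q hq
    unfold UL at hq
    obtain ⟨h1, -⟩ := ZFSet.mem_sep.1 hq
    obtain ⟨a, ha, c, hc, e⟩ := ZFSet.mem_prod.1 h1
    exact ⟨a, ha, c, hc, e⟩
  · intro u hu
    obtain ⟨c, rfl, hc⟩ := (P6 _).1 hu
    refine ⟨?_, ?_, ?_, ?_, ?_⟩
    · rw [hfst, hsnd]; rfl
    · rw [hff, hsnd]; exact c.x.mem
    · rw [hcl c hc]; exact (i c.v c.x).mem
    · rw [hcl c hc]; exact hnv _ (hne c hc)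
    · rw [hcl c hc, hsnd, hjj c hc, hgr]
      exact ⟨c.x, rfl, rfl⟩
  · intro a _ c _ hac
    obtain ⟨ha, hc, hle⟩ := (hL a c).1 hac
    obtain ⟨c1, rfl, h1⟩ := (P6 _).1 ha
    obtain ⟨c2, rfl, h2⟩ := (P6 _).1 hc
    have hle2 := (P1 _ _).1 hle
    obtain ⟨k0, hk0⟩ := hle2
    have hex : ∃ z, HWr (ZFSet.pair c1.code c2.code) z := by
      obtain ⟨w, hw⟩ := hk0.good
      exact ⟨_, c1, c2, k0, w, rfl, hk0, hw, rfl⟩
    have hH : app (UH κ) (ZFSet.pair c1.code c2.code) = hwV (ZFSet.pair c1.code c2.code) := by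
      unfold UH
      exact app_resS hac
    have hH2 : hwV (ZFSet.pair c1.code c2.code) = hex.choose := by
      unfold hwV
      rw [dif_pos hex]
    obtain ⟨d1, d2, k, w, e1, hk, -, e2⟩ := hex.choose_spec
    obtain ⟨e3, e4⟩ := ZFSet.pair_injective e1
    have e5 := A2 _ _ e3
    have e6 := A2 _ _ e4
    subst e5 e6
    have hfa : fst (app (UH κ) (ZFSet.pair c1.code c2.code)) = k.toMor.gr := by
      rw [hH, hH2, e2, fst_pair]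
    rw [hfa, hjj c1 h1, hjj c2 h2, hcl c1 h1, hcl c2 h2, hsnd, hsnd, hff]
    refine ⟨El.le_iff.1 (C1 _ _ h1 h2 ⟨k0, hk0⟩), (hgr _ _ _).2 ⟨c2.x, rfl, ?_⟩, ?_⟩
    · exact congrArg El.val hk.img
    · intro x _ y _ z _ hxy hyz
      obtain ⟨x0, rfl, rfl⟩ := (hgr _ _ _).1 hxy
      obtain ⟨y0, e7, rfl⟩ := (hgr _ _ _).1 hyz
      have e8 : y0 = k x0 := El.ext e7
      subst e8
      refine ⟨x0.mem, (i c2.v x0).val, (i c2.v x0).mem, (hgr _ _ _).2 ⟨x0, rfl, rfl⟩, ?_⟩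
      refine El.le_iff.1 ?_
      have h3 := C2 c1 c2 k h1 h2 hk x0
      exact h3.le.trans inf_le_left
  · intro c hc g hg x hx hx0
    obtain ⟨c', rfl, h1⟩ := (P6 _).1 hc
    rw [hcl c' h1]
    by_cases h2 : (⟨x, hx⟩ : El Z.B) ⊓ (i c'.v c'.x ⊓ ⟨g, hg⟩) = ⊥
    · refine ⟨x, hx, hx0, fun z hz => hz, Or.inl ?_⟩
      have h3 := congrArg El.val h2
      rw [El.inf_val, El.inf_val, El.bot_val] at h3
      exact h3
    · have h3 : ((⟨x, hx⟩ : El Z.B) ⊓ ⟨g, hg⟩) ⊓ (i c'.v c'.x ⊓ i c'.v c'.x) ≠ ⊥ := by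
        rw [inf_idem, inf_assoc, inf_comm (⟨g, hg⟩ : El Z.B)]
        exact h2
      obtain ⟨c2, h4, h5, -, h6⟩ := C8 _ _ _ h1 h1 h3
      have h7 := El.le_iff.1 h6
      rw [El.inf_val] at h7
      refine ⟨(i c2.v c2.x).val, (i c2.v c2.x).mem, hnv _ (hne c2 h4),
        fun z hz => (ZFSet.mem_inter.1 (h7 hz)).1, Or.inr ⟨c2.code, (P6 _).2 ⟨c2, rfl, h4⟩,
        (hL _ _).2 ⟨(P6 _).2 ⟨c2, rfl, h4⟩, (P6 _).2 ⟨c', rfl, h1⟩, (P1 _ _).2 h5⟩,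
        (hcl c2 h4).symm, fun z hz => (ZFSet.mem_inter.1 (h7 hz)).2⟩⟩

/-- decomposition of elements which know a pair -/
theorem dec (hAP : T_AP) {B : V} [IsCBA B] {N' N : V} {b : El B} {σ : V → V → El B}
    (hN : NP N' N) (h : BMap N' N b σ) (hb : b ≠ ⊥) {z' y y2 : V}
    (hz : σ z' (ZFSet.pair y y2) = b) :
    ∃ x ∈ N', ∃ x2 ∈ N', z' = ZFSet.pair x x2 ∧ σ x y = b ∧ σ x2 y2 = b := by
  obtain ⟨-, A2, -⟩ := hAP B N' N b σ hN h hb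
  obtain ⟨x, hx, x2, hx2, e, hle⟩ := A2 z' y y2 (by rw [hz]; exact hb)
  rw [hz] at hle
  refine ⟨x, hx, x2, hx2, e, ?_, ?_⟩
  · exact le_antisymm ((le_iSup (fun y => σ x y) y).trans (h.tot x hx).le)
      (hle.trans inf_le_left)
  · exact le_antisymm ((le_iSup (fun y => σ x2 y) y2).trans (h.tot x2 hx2).le)
      (hle.trans inf_le_right)

/-- the same, with known components -/
theorem dec2 (hAP : T_AP) {B : V} [IsCBA B] {N' N : V} {b : El B} {σ : V → V → El B}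
    (hN : NP N' N) (h : BMap N' N b σ) (hb : b ≠ ⊥) {x x2 y y2 : V}
    (hz : σ (ZFSet.pair x x2) (ZFSet.pair y y2) = b) : σ x y = b ∧ σ x2 y2 = b := by
  obtain ⟨x', -, x2', -, e, h1, h2⟩ := dec hAP hN h hb hz
  obtain ⟨rfl, rfl⟩ := ZFSet.pair_injective e
  exact ⟨h1, h2⟩

/-- UKA. Elements which know the parameters. -/
theorem uka (hTR : T_TR) (hAM : T_AM) (hAP : T_AP) (hZN : T_ZN) (hUC : T_UC) (hUP : T_UP)
    (hUA : T_UA) : T_UKA := by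
  intro κ Z i hκ hC c0 hc0 A N' N p' b σ hN hσ hb hp
  obtain ⟨U, hU, p1, hp1, e1, k1, q1⟩ := dec hAP hN hσ hb hp
  obtain ⟨L, hL, p2, hp2, e2, k2, q2⟩ := dec hAP hN hσ hb q1
  obtain ⟨R, hR, p3, hp3, e3, k3, q3⟩ := dec hAP hN hσ hb q2
  obtain ⟨CL, hCL, p4, hp4, e4, k4, q4⟩ := dec hAP hN hσ hb q3
  obtain ⟨HW, hHW, p5, hp5, e5, k5, q5⟩ := dec hAP hN hσ hb q4
  obtain ⟨PM, hPM, t', ht', e6, k6, k7⟩ := dec hAP hN hσ hb q5
  subst e6 e5 e4 e3 e2 e1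
  obtain ⟨r1, r2, r3⟩ := real_facts hUA hUC hUP hκ hC (· ∈ N)
  -- the assignment
  let v : ℕ → V × V := fun n => match n with
    | 0 => (U, UU κ)
    | 1 => (L, UL κ)
    | 2 => (R, Z.B)
    | 3 => (CL, UCl κ)
    | 4 => (HW, UH κ)
    | 5 => (PM, UM κ i)
    | _ + 6 => (t', c0.code)
  have hv7 : ∀ n, σ (v n).1 (v n).2 = b := by
    intro n
    match n with
    | 0 => exact k1
    | 1 => exact k2
    | 2 => exact k3
    | 3 => exact k4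
    | 4 => exact k5
    | 5 => exact k6
    | _ + 6 => exact k7
  classical
  let s : Finset (V × V) := (Finset.range 7).image v
  have hvs : ∀ n, v n ∈ s := by
    intro n
    by_cases hn : n < 7
    · exact Finset.mem_image_of_mem _ (Finset.mem_range.2 hn)
    · obtain ⟨m, rfl⟩ : ∃ m, n = m + 6 := ⟨n - 6, by omega⟩
      exact Finset.mem_image_of_mem v (Finset.mem_range.2 (show 0 + 6 < 7 by omega))
  have hs : (s.inf fun q => σ q.1 q.2) ≠ ⊥ := by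
    intro h0
    apply hb
    refine le_bot_iff.1 ?_
    rw [← h0]
    refine Finset.le_inf fun q hq => ?_
    obtain ⟨n, -, rfl⟩ := Finset.mem_image.1 hq
    exact (hv7 n).ge
  have g1 := (hTR _ dfb_F12 A.B N' N b σ hN hσ s hs v hvs).2 r1
  have g2 := (hTR _ dfb_F3 A.B N' N b σ hN hσ s hs v hvs).2 r2
  have g3 := (hTR _ dfb_F4 A.B N' N b σ hN hσ s hs v hvs).2 r3
  have g1' : F12 U L R CL PM := g1
  have g2' : F3 (· ∈ N') L R CL HW PM := g2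
  have g3' : F4 U L R CL := g3
  have hz := hZN A.B N' N b σ hN hσ hb
  have hcu : c0.code ∈ UU κ := ((hUP.2.2.2 κ).2 _).2 ⟨c0, rfl, hc0⟩
  refine ⟨⟨U, L, R, CL, HW, PM, t', ⟨hU, hL, hR, hCL, hHW, hPM, ht'⟩, ?_, g1'.1, g1'.2, ?_, g3',
    ?_⟩⟩
  · intro A2 b2 τ hτ hb2 hp2
    obtain ⟨w1, x1⟩ := dec2 hAP hN hτ hb2 hp2
    obtain ⟨w2, x2⟩ := dec2 hAP hN hτ hb2 x1
    obtain ⟨w3, x3⟩ := dec2 hAP hN hτ hb2 x2
    obtain ⟨w4, x4⟩ := dec2 hAP hN hτ hb2 x3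
    obtain ⟨w5, x5⟩ := dec2 hAP hN hτ hb2 x4
    obtain ⟨w6, x6⟩ := dec2 hAP hN hτ hb2 x5
    exact ⟨w1, w2, w3, w4, w5, w6, x6⟩
  · intro a c hac
    have hac2 := hz.toZFm.of_pair_mem hL hac
    obtain ⟨g4, g5, g6⟩ := g2' a hac2.1 c hac2.2 hac
    refine ⟨g4, g5, fun x y hxy z hyz => ?_⟩
    have c1 : fst (app HW (ZFSet.pair a c)) ∈ N' := by
      have t : Tm ZFm (fun _ v => fst (app (v 0) (ZFSet.pair (v 1) (v 2)))) :=
        Tm.fst (Tm.app (Tm.var 0) (Tm.pair (Tm.var 1) (Tm.var 2)))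
      exact t.1 (· ∈ N') hz.toZFm (fun n => match n with
        | 0 => HW
        | 1 => a
        | _ + 2 => c) (fun n => by
          match n with
          | 0 => exact hHW
          | 1 => exact hac2.1
          | _ + 2 => exact hac2.2)
    have c2 : jj PM a ∈ N' := by
      have t : Tm ZFm (fun _ v => jj (v 0) (v 1)) := tm_jj (Tm.var 0) (Tm.var 1)
      exact t.1 (· ∈ N') hz.toZFm (fun n => match n with
        | 0 => PM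
        | _ + 1 => a) (fun n => by
          match n with
          | 0 => exact hPM
          | _ + 1 => exact hac2.1)
    have hx := hz.toZFm.of_pair_mem c1 hxy
    have hy := hz.toZFm.of_pair_mem c2 hyz
    obtain ⟨g7, z', g8, g9, g10⟩ := g6 x hx.1 y hx.2 z hy.2 hxy hyz
    exact ⟨g7, z', g9, g8, g10⟩
  · exact ((hAM A.B N' N b σ hN hσ t' c0.code U (UU κ) (by rw [k7, k1, inf_idem]; exact hb)).1).2
      hcu

end H33

end SF
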