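import Pool.Agent.H45.SF.UT

/-!
# UZ: the canonical morphisms are good
-/

open Ordinal Cardinal Order Set
open scoped ZFSet

namespace SF

namespace H33

/-- a partition of the top which is below another disjoint family is equal to it -/
theorem part_eq {B : V} [IsCBA B] (x y : V → El B) (h : ∀ z, x z ≤ y z) (hx : ⨆ z, x z = ⊤)
    (hy : ∀ z z', z ≠ z' → y z ⊓ y z' = ⊥) (z : V) : y z = x z := by
  refine le_antisymm ?_ (h z)
  have h1 : y z = ⨆ w, y z ⊓ x w := by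
    rw [← inf_iSup_eq, hx, inf_top_eq]
  rw [h1]
  refine iSup_le fun w => ?_
  by_cases hw : z = w
  · subst hw
    exact inf_le_right
  · exact (inf_le_inf_left _ (h w)).trans ((hy z w hw).le.trans bot_le)

/-- change of the first condition -/
theorem first_aux {cc : Cd} {v : Obj} {hne : (⊤ : El v.A.B) ≠ ⊥} (e : cc = ⟨v, ⊤, hne⟩) {A : BA}
    {o : Obj} (ι' : BMor cc.v.A A) (k0 : BMor A o.A) (f0 : BMor v.A A)
    (hD : ∀ (x : El v.A.B) (x' : El cc.v.A.B), x'.val = x.val → ι' x' = f0 x)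
    (y : El o.A.B) (hy : y ≠ ⊥) (h : IsTr ⟨o, y, hy⟩ cc (ι'.comp k0)) :
    ∃ h' : BMor v.A o.A, IsTr ⟨o, y, hy⟩ ⟨v, ⊤, hne⟩ h' ∧ ∀ x, h' x = k0 (f0 x) := by
  subst e
  refine ⟨ι'.comp k0, h, fun x => ?_⟩
  show k0 (ι' x) = _
  rw [hD x x rfl]

/-- the first morphism into the limit is injective -/
theorem lim_inj0 (hMP : T_MP) {A : ℕ → BA} {f : ∀ n, BMor (A n) (A (n + 1))} {Y : BA}
    {k : ∀ n, BMor (A n) Y} (hL : Lim A f Y k) (x : El (A 0).B) (hx : k 0 x = ⊥) : x = ⊥ := by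
  by_contra h0
  let t : ∀ n, El (A n).B := fun n => Nat.rec x (fun n y => f n y) n
  have ht : Thr f t := by
    constructor
    · intro n
      induction n with
      | zero => exact h0
      | succ n ih => exact fun h => ih (hL.inj n _ h)
    · intro n
      show (f n).proj (f n (t n)) = t n
      obtain ⟨-, -, -, -, -, -, m7, m8⟩ := hMP (A n).B (A (n + 1)).B (f n).toMor
      have h1 : (f n).proj (f n ⊤) = ⊤ := by
        have h2 := (m8 ((f n).proj (f n ⊤))ᶜ).2 (by rw [inf_comm]; exact inf_compl_eq_bot)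
        have h3 := hL.inj n _ h2
        rwa [compl_eq_bot] at h3
      have h4 := m7 (t n)
      rw [h1, inf_top_eq] at h4
      exact h4
  obtain ⟨h1, -⟩ := hL.thr t ht
  apply h1
  refine le_bot_iff.1 ?_
  rw [← hx]
  exact iInf_le (fun n => k n (t n)) 0

/-- UZ. The canonical morphisms are good. -/
theorem uz (hUK : T_UK) (hUD : T_UD) (hUS : T_US) (hUL : T_UL) (hUC : T_UC) (hUV : T_UV)
    (hLI : T_LI) (hG4 : T_G4) (hGL : T_GL) (hTU : T_TU) (hBR : T_BR) (hMB : T_MB)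
    (hMP : T_MP) : T_UZ := by
  intro κ Z i hκ hC v hv
  by_cases hne : (⊤ : El v.A.B) = ⊥
  · refine ⟨∅, fun F => absurd ?_ F.ne⟩
    exact le_bot_iff.1 (le_top.trans hne.le)
  obtain ⟨p, hp⟩ := hUK κ Z i hκ hC v hne hv
  refine ⟨p, fun F q hq => ?_⟩
  obtain ⟨u0, hu0, ⟨K⟩, hKu⟩ := hp F
  obtain ⟨T0, f0, D1, D2, D3, D4, D5, D6⟩ := hUD κ Z i hκ hC v hne p u0 hv F K hKu
  have hp' : F.p' ∈ F.N' := (F.map.dom _ _ (by rw [F.kp]; exact F.ne)).1
  have hw' : F.w ∈ F.N' := (F.map.dom _ _ (by rw [F.kw]; exact F.ne)).1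
  -- enumeration
  obtain ⟨e, he⟩ : ∃ e : ℕ → V, ((F.N' : V) : Set V) = Set.range e :=
    F.np.ctb.exists_eq_range ⟨q, hq⟩
  have he1 : ∀ n, e n ∈ F.N' := fun n => by
    have : e n ∈ ((F.N' : V) : Set V) := he ▸ Set.mem_range_self n
    exact this
  have he2 : ∀ x ∈ F.N', ∃ n, e n = x := fun x hx => by
    have : x ∈ ((F.N' : V) : Set V) := hx
    rw [he] at this
    exact this
  let lst : ℕ → List V := fun n => q :: F.p' :: F.w ::
    ((List.range (n + 1)).map K.u ++ (List.range (n + 1)).map e)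
  have hlst : ∀ n, ∀ a ∈ lst n, a ∈ F.N' := by
    intro n a ha
    simp only [lst, List.mem_cons, List.mem_append, List.mem_map] at ha
    rcases ha with rfl | rfl | rfl | ⟨m, -, rfl⟩ | ⟨m, -, rfl⟩
    · exact hq
    · exact hp'
    · exact hw'
    · exact (K.mem m).1
    · exact he1 m
  have hQ : ∀ n, tup (lst n) ∈ F.N' := fun n =>
    (hTU v.A.B v.A.B F.N' F.N F.b F.b F.σ F.σ (Mor.id v.A.B) F.np F.map F.map le_rfl (lst n)
      (hlst n)).1
  -- the sequence of the stages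
  obtain ⟨T, f, hT0, hLe⟩ : ∃ (T : ∀ n, Stg K n) (f : ∀ n, BMor (T n).A (T (n + 1)).A),
      T 0 = T0 ∧ ∀ n, StgLe (T n) (T (n + 1)) (f n) (tup (lst n)) := by
    have step : ∀ n (T : Stg K n), ∃ (T' : Stg K (n + 1)) (f : BMor T.A T'.A),
        StgLe T T' f (tup (lst n)) := fun n T =>
      hUS κ Z i hκ F.N' F.N F.w F.p' p F.G' u0 K n T hp' hw' _ (hQ n)
    choose nx fx hx using step
    exact ⟨fun n => Nat.rec T0 (fun n t => nx n t) n, fun n => fx n _, rfl, fun n => hx n _⟩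
  subst hT0
  have hkeep : ∀ n, ∀ a ∈ lst n, ∀ z, (T (n + 1)).σ a z = f n ((T n).σ a z) := by
    intro n a ha z
    have h1 := (hTU (T n).A.B (T (n + 1)).A.B F.N' F.N ⊤ ⊤ (T n).σ (T (n + 1)).σ (f n).toMor
      F.np (T n).map (T (n + 1)).map (hLe n).unit.ge (lst n) (hlst n)).2
      (fun z => by rw [top_inf_eq]; exact (hLe n).keep z) a ha
    refine part_eq (fun z => f n ((T n).σ a z)) (fun z => (T (n + 1)).σ a z) ?_ ?_ ?_ z
    · intro z
      have h2 := h1 z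
      rwa [top_inf_eq] at h2
    · obtain ⟨-, -, -, -, -, m6, -⟩ := hMB (T n).A.B (T (n + 1)).A.B (f n).toMor
      rw [← m6, (T n).map.tot a (hlst n a ha)]
      exact (hLe n).unit
    · exact (T (n + 1)).map.fn a
  -- the limit
  obtain ⟨V1, -, -, -, -, -, -, V8, -, V10, -⟩ := hUV κ hκ
  obtain ⟨Y, k, hLim, hrk⟩ := hLI (fun n => (T n).A) f (fun n => (hLe n).unit)
    (fun n => (hLe n).inj)
  have hYκ : Y.B ∈ V_ κ := by
    obtain ⟨ρ, h1, h2, h3⟩ := V8 (fun n => (T n).A.B) (fun n => (T n).rank)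
    exact ZFSet.vonNeumann_subset_of_le (V1 ρ h1).le (hrk ρ h2 h3)
  have hgood := hG4 _ f Y k hLim (fun n => (hLe n).good)
  obtain ⟨σW, hW1, hW2⟩ := hGL (fun n => (T n).A) f Y k hLim.comm F.N' F.N (fun n => ⊤) ⊤
    (fun n => (T n).σ) e he2 (fun n => (T n).map) (fun n => (hLim.kunit n).ge) (by
      intro n i hi y
      rw [inf_top_eq]
      refine hkeep n (e i) ?_ y
      simp only [lst, List.mem_cons, List.mem_append, List.mem_map]
      exact Or.inr (Or.inr (Or.inr (Or.inr ⟨i, List.mem_range.2 (by omega), rfl⟩))))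
  have hst : ∀ a ∈ F.N', ∀ m, (∀ n, m ≤ n → a ∈ lst n) → ∀ y,
      σW a y = k m ((T m).σ a y) := by
    intro a ha m hm y
    obtain ⟨j, rfl⟩ := he2 a ha
    have h1 : ∀ d, k (m + d) ((T (m + d)).σ (e j) y) = k m ((T m).σ (e j) y) := by
      intro d
      induction d with
      | zero => rfl
      | succ d ih =>
        rw [← ih]
        have h2 := hkeep (m + d) (e j) (hm _ (by omega)) y
        show k (m + d + 1) ((T (m + d + 1)).σ (e j) y) = _
        rw [h2]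
        exact hLim.comm (m + d) _
    have h3 := hW2 (m + j) j (by omega) y
    rw [h3, inf_top_eq]
    exact h1 j
  have hu_mem : ∀ m, ∀ y, σW (K.u m) y = k m ((T m).σ (K.u m) y) := by
    intro m y
    refine hst _ (K.mem m).1 m ?_ y
    intro n hn
    simp only [lst, List.mem_cons, List.mem_append, List.mem_map]
    exact Or.inr (Or.inr (Or.inr (Or.inl ⟨m, List.mem_range.2 (by omega), rfl⟩)))
  have hq_mem : ∀ y, σW q y = k 0 ((T 0).σ q y) := by
    refine hst _ hq 0 ?_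
    intro n hn
    simp only [lst, List.mem_cons]
    exact Or.inl trivial
  have hp_mem : ∀ y, σW F.p' y = k 0 ((T 0).σ F.p' y) := by
    refine hst _ hp' 0 ?_
    intro n hn
    simp only [lst, List.mem_cons]
    exact Or.inr (Or.inl trivial)
  -- the object
  obtain ⟨α, bb, g1, g2, g3, hoκ, hTr⟩ := hUL κ Z i hκ F.N' F.N F.w F.p' p F.G' u0 K T f
    (fun n => tup (lst n)) hLe Y k hLim hYκ hgood
  set o : Obj := Obj.mk Y α bb g1 g2 g3 with ho
  obtain ⟨C1, C2, C3, -⟩ := hUC κ Z i hκ hC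
  have htop0 : (⊤ : El (T 0).A.B) ≠ ⊥ := by
    intro h
    have h1 := D2 F.b (D1.trans h)
    rw [inf_idem] at h1
    exact F.ne h1
  have hk0 : k 0 ⊤ ≠ ⊥ := fun h => htop0 (lim_inj0 hMP hLim _ h)
  obtain ⟨h', hTr0, hh'⟩ := first_aux D5 (o := o) ((T 0).ι ⊤) (k 0) f0 D6 (k 0 ⊤) hk0
    (hTr 0 ⊤ D4 hk0)
  have H : ∀ z, i o (k 0 (f0 z)) = i v z ⊓ i o (⊤ : El o.A.B) := by
    intro z
    have h1 := C2 ⟨o, k 0 ⊤, hk0⟩ ⟨v, ⊤, hne⟩ h' ((V10 _).2 hoκ) ((V10 _).2 hv) hTr0 z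
    rw [hh' z] at h1
    have h2 : k 0 (⊤ : El (T 0).A.B) = (⊤ : El o.A.B) := hLim.kunit 0
    rw [← h2]
    exact h1
  obtain ⟨m1, m2, m3, m4, m5, m6, m7⟩ := hMB o.A.B Z.B (i o).toMor
  obtain ⟨n1, n2, -⟩ := hMB v.A.B Z.B (i v).toMor
  refine ⟨i o ⊤, fun x y => i o (σW x y), ?_, ?_, ?_, ?_, ?_⟩
  · have h1 := H F.b
    rw [D1, hLim.kunit] at h1
    have h2 : i o (⊤ : El o.A.B) = i v F.b ⊓ i o (⊤ : El o.A.B) := h1
    rw [h2]
    exact inf_le_left
  · intro b' hb'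
    have h1 := H (F.b ⊓ b'ᶜ)
    have h2 : i v (F.b ⊓ b'ᶜ) ⊓ i o (⊤ : El o.A.B) = ⊥ := by
      refine le_bot_iff.1 ?_
      refine (inf_le_inf (n1 _ _ (inf_le_right : F.b ⊓ b'ᶜ ≤ b'ᶜ)) hb').trans ?_
      have h3 := (i v).inf b'ᶜ b'
      rw [compl_inf_eq_bot, n2] at h3
      exact h3.ge
    rw [h2] at h1
    have h4 := C3 o hoκ _ h1
    have h5 := lim_inj0 hMP hLim _ h4
    have h6 := D2 _ h5
    have h7 : F.b ⊓ b'ᶜ = ⊥ := by
      rw [← h6, inf_right_comm, inf_idem]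
    exact disjoint_compl_right_iff.1 (disjoint_iff.2 h7)
  · have h1 := hBR Y.B Z.B F.N' F.N ⊤ σW (i o).toMor hW1 (i o ⊤) le_rfl
    have h2 : (fun x y => (i o).toMor (σW x y) ⊓ i o (⊤ : El o.A.B)) =
        fun x y => i o (σW x y) := by
      funext x y
      exact inf_eq_left.2 (m1 _ _ le_top)
    rw [← h2]
    exact h1
  · intro x hx z
    obtain ⟨n, hn⟩ := K.k3 x hx
    have h1 := hn Y ⊤ σW hW1 ?_ ?_
    · have h2 : σW x z = ⨆ s : (T n).S, σW x z ⊓ k n s.1 := by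
        have h3 := (k n).sup (T n).S
        rw [(T n).sup, sSup_image'] at h3
        rw [← inf_iSup_eq, ← h3, hLim.kunit, inf_top_eq]
      rw [h2, m6]
      refine iSup_le fun s => ?_
      by_cases h4 : σW x z ⊓ k n s.1 = ⊥
      · have h5 : i o (σW x z ⊓ k n s.1) = ⊥ := by
          rw [h4]; exact m2
        exact h5.le.trans bot_le
      · have h5 : k n s.1 ≠ ⊥ := fun h => h4 (by rw [h, inf_bot_eq])
        have h6 : k n s.1 ≤ σW (K.u n) ((T n).c s.1).code := by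
          rw [hu_mem]
          exact (hMB (T n).A.B Y.B (k n).toMor).1 _ _ ((T n).val s.1 s.2)
        have h7 := h1 ((T n).c s.1) z (fun h => h4 (le_bot_iff.1
          ((inf_le_inf_left _ h6).trans h.le)))
        refine le_trans ?_ h7
        have h8 := C1 ⟨o, k n s.1, h5⟩ ((T n).c s.1) ((V10 _).2 hoκ) ((T n).cκ s.1 s.2)
          ⟨_, hTr n s.1 s.2 h5⟩
        exact (m1 _ _ inf_le_right).trans h8
    · intro h
      exact hk0 (le_bot_iff.1 (le_top.trans h.le))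
    · rw [hp_mem, (T 0).kp]
      exact hLim.kunit 0
  · intro z
    have h1 := H (F.σ q z)
    rw [inf_comm, ← h1, ← D3]
    show _ ≤ i o (σW q z)
    rw [hq_mem]

end H33

end SF
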